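import Mathlib.MeasureTheory.Measure.Haar.InnerProductSpace
import Mathlib.LinearAlgebra.Matrix.Determinant.Basic
import Mathlib.Data.Set.Card
import Pool.Agent.MP_12aee2_gt.Defs

/-!
The symplectic volume, and covers that cannot be shrunk to a cover of small multiplicity.
-/

open scoped ENNReal

namespace Pool.Agent.MP_12aee2_gt

variable {d : ℕ} {M : ClosedMfd d}

/-- The matrix of `σ` at the point `y` of the chart at `p`, in the coordinate basis. -/
noncomputable def gram (σ : TwoForm M) (p : M.carrier) (y : EuclideanSpace ℝ (Fin d)) :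
    Matrix (Fin d) (Fin d) ℝ :=
  Matrix.of fun a b => formInChart σ p y ![EuclideanSpace.single a 1, EuclideanSpace.single b 1]

/-- The volume of `W` for `σ^n / n!`: in a chart the density is the absolute value of the Pfaffian,
the square root of `|det (gram)|`. The infimum runs over finite families of measurable pieces of
charts that cover `W`; for a Borel set `W`, every family of pieces whose images partition `W`
attains it. -/
noncomputable def vol (σ : TwoForm M) (W : Set M.carrier) : ℝ≥0∞ :=
  ⨅ (s : Finset M.carrier) (B : M.carrier → Set (EuclideanSpace ℝ (Fin d)))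
    (_ : ∀ p, MeasurableSet (B p) ∧ B p ⊆ (chartOf M p).target)
    (_ : ∀ x ∈ W, ∃ p ∈ s, x ∈ (chartOf M p).symm '' B p),
    ∑ p ∈ s, ∫⁻ y in B p, ENNReal.ofReal √|(gram σ p y).det|

/-- The union of the sets of the family `U` that contain `x`. -/
def starAt {X : Type} {N : ℕ} (U : Fin N → Set X) (x : X) : Set X :=
  {y | ∃ i, x ∈ U i ∧ y ∈ U i}

/-- Every open cover `V` with `V i ⊆ U i` has a point lying in at least `k` of its sets. -/
def Overlaps {X : Type} [TopologicalSpace X] {N : ℕ} (k : ℕ) (U : Fin N → Set X) : Prop :=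
  ∀ V : Fin N → Set X, (∀ i, IsOpen (V i) ∧ V i ⊆ U i) → ⋃ i, V i = Set.univ →
    ∃ x, k ≤ {i | x ∈ V i}.ncard

end Pool.Agent.MP_12aee2_gt
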