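import Mathlib
import Pool.Agent.MP_12aee2_gt.h38.Defs

/-!
The Poisson bracket in a chart.
-/

open Matrix Set
open scoped Manifold ContDiff

namespace Pool.Agent.MP_12aee2_gt.H38

variable {d : ℕ}

/-- A two-form on a normed space as a bilinear map. -/
noncomputable def bil (β : (EuclideanSpace ℝ (Fin d)) [⋀^Fin 2]→L[ℝ] ℝ) :
    EuclideanSpace ℝ (Fin d) →ₗ[ℝ] EuclideanSpace ℝ (Fin d) →ₗ[ℝ] ℝ :=
  LinearMap.mk₂ ℝ (fun v w => β ![v, w]) (fun a b w => β.vecCons_add ![w] a b)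
    (fun c a w => β.vecCons_smul ![w] c a)
    (fun v a b => by
      have e : ∀ w, ![v, w] = Function.update ![v, 0] 1 w := fun w => by
        ext1 i; fin_cases i <;> simp
      simp only [e a, e b, e (a + b)]
      exact β.map_update_add _ _ _ _)
    (fun c v a => by
      have e : ∀ w, ![v, w] = Function.update ![v, 0] 1 w := fun w => by
        ext1 i; fin_cases i <;> simp
      simp only [e a, e (c • a)]
      exact β.map_update_smul _ _ _ _)

theorem euc_sum (v : EuclideanSpace ℝ (Fin d)) :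
    v = ∑ a, v.ofLp a • EuclideanSpace.single a (1 : ℝ) := by
  ext b
  simp [Pi.single_apply]

theorem form_eq (β : (EuclideanSpace ℝ (Fin d)) [⋀^Fin 2]→L[ℝ] ℝ)
    (v w : EuclideanSpace ℝ (Fin d)) :
    β ![v, w] = (v.ofLp ᵥ* Matrix.of fun a b =>
      β ![EuclideanSpace.single a 1, EuclideanSpace.single b 1]) ⬝ᵥ w.ofLp := by
  have e : ∀ a b, β ![a, b] = bil β a b := fun _ _ => rfl
  simp only [e]
  conv_lhs => rw [euc_sum v, euc_sum w]
  simp only [map_sum, map_smul, LinearMap.sum_apply, LinearMap.smul_apply, smul_eq_mul,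
    dotProduct, Matrix.vecMul, Matrix.of_apply, Finset.sum_mul, Finset.mul_sum]
  refine Finset.sum_congr rfl fun b _ => Finset.sum_congr rfl fun a _ => by ring

variable {M : ClosedMfd d} {σ : TwoForm M} {p : M.carrier} {y : EuclideanSpace ℝ (Fin d)}

theorem formVal_chart (v w : EuclideanSpace ℝ (Fin d)) :
    formVal σ ((chartOf M p).symm y) (chartInvDeriv M p y v) (chartInvDeriv M p y w)
      = (v.ofLp ᵥ* gram σ p y) ⬝ᵥ w.ofLp := by
  rw [gram, ← form_eq, formVal, formInChart,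
    ContinuousAlternatingMap.compContinuousLinearMap_apply]
  congr 1
  ext1 i
  fin_cases i <;> rfl

theorem inv_bij (hy : y ∈ (chartOf M p).target) : Function.Bijective (chartInvDeriv M p y) :=
  (mdifferentiable_chart (I := 𝓡 d) p).symm.mfderiv_bijective hy

theorem det_gram (hσ : IsSymplectic σ) (hy : y ∈ (chartOf M p).target) :
    (gram σ p y).det ≠ 0 := by
  intro h
  obtain ⟨v, hv, h0⟩ := Matrix.exists_vecMul_eq_zero_iff.2 h
  have h1 := hσ.nondeg _ (chartInvDeriv M p y (WithLp.toLp 2 v)) fun w => by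
    obtain ⟨w, rfl⟩ := (inv_bij hy).2 w
    rw [formVal_chart]
    simp [h0]
  have h2 : WithLp.toLp 2 v = (0 : EuclideanSpace ℝ (Fin d)) :=
    (inv_bij hy).1 (by rw [h1, map_zero])
  exact hv (by simpa using h2)

/-- the gradient of a function in the chart -/
noncomputable def row (f : M.carrier → ℝ) (p : M.carrier) (y : EuclideanSpace ℝ (Fin d)) :
    Fin d → ℝ :=
  fun a => fderiv ℝ (f ∘ (chartOf M p).symm) y (EuclideanSpace.single a 1)

theorem smooth_chart {f : M.carrier → ℝ} (hf : ContMDiff (𝓡 d) 𝓘(ℝ, ℝ) ∞ f) :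
    ContDiffOn ℝ ∞ (f ∘ (chartOf M p).symm) (chartOf M p).target :=
  contMDiffOn_iff_contDiffOn.1 (hf.comp_contMDiffOn contMDiffOn_chart_symm)

theorem diff_chart {f : M.carrier → ℝ} (hf : ContMDiff (𝓡 d) 𝓘(ℝ, ℝ) ∞ f)
    (hy : y ∈ (chartOf M p).target) : DifferentiableAt ℝ (f ∘ (chartOf M p).symm) y :=
  ((smooth_chart hf).contDiffAt ((chartOf M p).open_target.mem_nhds hy)).differentiableAt
    (by simp)

theorem diffVal_chart {f : M.carrier → ℝ} (hf : ContMDiff (𝓡 d) 𝓘(ℝ, ℝ) ∞ f)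
    (hy : y ∈ (chartOf M p).target) (w : EuclideanSpace ℝ (Fin d)) :
    diffVal f ((chartOf M p).symm y) (chartInvDeriv M p y w) = row f p y ⬝ᵥ w.ofLp := by
  have h1 : mfderiv (𝓡 d) 𝓘(ℝ, ℝ) (f ∘ (chartOf M p).symm) y
      = (mfderiv (𝓡 d) 𝓘(ℝ, ℝ) f ((chartOf M p).symm y)).comp
        (mfderiv (𝓡 d) (𝓡 d) (chartOf M p).symm y) :=
    mfderiv_comp y (hf.mdifferentiableAt (by simp))
      ((mdifferentiable_chart (I := 𝓡 d) p).mdifferentiableAt_symm hy)
  rw [mfderiv_eq_fderiv] at h1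
  have h2 : diffVal f ((chartOf M p).symm y) (chartInvDeriv M p y w)
      = fderiv ℝ (f ∘ (chartOf M p).symm) y w := by
    have := congrArg (fun L => L w) h1
    exact this.symm
  rw [h2]
  conv_lhs => rw [euc_sum w]
  simp only [map_sum, map_smul, smul_eq_mul, dotProduct, row]
  exact Finset.sum_congr rfl fun a _ => mul_comm _ _

theorem hamVec_chart (hσ : IsSymplectic σ) {f : M.carrier → ℝ}
    (hf : ContMDiff (𝓡 d) 𝓘(ℝ, ℝ) ∞ f) (hy : y ∈ (chartOf M p).target) :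
    hamVec σ f ((chartOf M p).symm y)
      = chartInvDeriv M p y (WithLp.toLp 2 (row f p y ᵥ* (gram σ p y)⁻¹)) := by
  have hu : IsUnit (gram σ p y).det := isUnit_iff_ne_zero.2 (det_gram hσ hy)
  have hex : ∃ v : Tan M ((chartOf M p).symm y), ∀ w, formVal σ _ v w = diffVal f _ w := by
    refine ⟨chartInvDeriv M p y (WithLp.toLp 2 (row f p y ᵥ* (gram σ p y)⁻¹)), fun w => ?_⟩
    obtain ⟨w, rfl⟩ := (inv_bij hy).2 w
    rw [formVal_chart, diffVal_chart hf hy, Matrix.vecMul_vecMul, Matrix.nonsing_inv_mul _ hu,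
      Matrix.vecMul_one]
  have h : ∀ w, formVal σ _ (hamVec σ f ((chartOf M p).symm y)) w = diffVal f _ w :=
    Classical.epsilon_spec hex
  obtain ⟨v, hv⟩ := (inv_bij hy).2 (hamVec σ f ((chartOf M p).symm y))
  rw [← hv] at h ⊢
  have h2 : v.ofLp ᵥ* gram σ p y = row f p y := by
    ext a
    have := h (chartInvDeriv M p y (EuclideanSpace.single a 1))
    rw [formVal_chart, diffVal_chart hf hy] at this
    simpa using this
  rw [← h2, Matrix.vecMul_vecMul, Matrix.mul_nonsing_inv _ hu, Matrix.vecMul_one]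

theorem poisson_chart (hσ : IsSymplectic σ) {f g : M.carrier → ℝ}
    (hf : ContMDiff (𝓡 d) 𝓘(ℝ, ℝ) ∞ f) (hg : ContMDiff (𝓡 d) 𝓘(ℝ, ℝ) ∞ g)
    (hy : y ∈ (chartOf M p).target) :
    poisson σ f g ((chartOf M p).symm y)
      = ((row f p y ᵥ* (gram σ p y)⁻¹) ᵥ* gram σ p y) ⬝ᵥ (row g p y ᵥ* (gram σ p y)⁻¹) := by
  rw [poisson, hamVec_chart hσ hf hy, hamVec_chart hσ hg hy, formVal_chart]

variable {ι : Type} [Fintype ι]

theorem smooth_comb {f : ι → M.carrier → ℝ} (hf : ∀ i, ContMDiff (𝓡 d) 𝓘(ℝ, ℝ) ∞ (f i))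
    (a : ι → ℝ) : ContMDiff (𝓡 d) 𝓘(ℝ, ℝ) ∞ fun x => ∑ i, a i * f i x :=
  contMDiff_finsetSum fun i _ => contMDiff_const.mul (hf i)

/-- the gradients of a family of functions in the chart -/
noncomputable def rows {ι : Type} (f : ι → M.carrier → ℝ) (p : M.carrier)
    (y : EuclideanSpace ℝ (Fin d)) : Matrix ι (Fin d) ℝ :=
  Matrix.of fun i => row (f i) p y

theorem row_comb {f : ι → M.carrier → ℝ} (hf : ∀ i, ContMDiff (𝓡 d) 𝓘(ℝ, ℝ) ∞ (f i))
    (hy : y ∈ (chartOf M p).target) (a : ι → ℝ) :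
    row (fun x => ∑ i, a i * f i x) p y = a ᵥ* rows f p y := by
  have h1 : HasFDerivAt ((fun x => ∑ i, a i * f i x) ∘ (chartOf M p).symm)
      (∑ i, a i • fderiv ℝ (f i ∘ (chartOf M p).symm) y) y :=
    HasFDerivAt.fun_sum fun i _ => (diff_chart (hf i) hy).hasFDerivAt.const_mul (a i)
  ext b
  simp only [row, h1.fderiv, Matrix.vecMul, dotProduct, rows, Matrix.of_apply,
    _root_.sum_apply, _root_.smul_apply, smul_eq_mul]

theorem poisson_comb (hσ : IsSymplectic σ) {f : ι → M.carrier → ℝ}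
    (hf : ∀ i, ContMDiff (𝓡 d) 𝓘(ℝ, ℝ) ∞ (f i)) (hy : y ∈ (chartOf M p).target)
    (a b : ι → ℝ) :
    poisson σ (fun x => ∑ i, a i * f i x) (fun x => ∑ i, b i * f i x) ((chartOf M p).symm y)
      = (((a ᵥ* rows f p y) ᵥ* (gram σ p y)⁻¹) ᵥ* gram σ p y) ⬝ᵥ
        ((b ᵥ* rows f p y) ᵥ* (gram σ p y)⁻¹) := by
  rw [poisson_chart hσ (smooth_comb hf a) (smooth_comb hf b) hy, row_comb hf hy, row_comb hf hy]

end Pool.Agent.MP_12aee2_gt.H38
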