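import Mathlib.Topology.Covering.Quotient
import Pool.Agent.MP_12aee2_gt.h38.Defs

/-!
Sets that lift into the star of a point for the lifted cover of a regular covering space.
-/

namespace Pool.Agent.MP_12aee2_gt

/-- `W` has a continuous section `t` of `q` whose values all lie in the star of one point `e` for
the cover of `E` by the sets `g • s j (U j)`. -/
def LiftsIntoStar {X E : Type} [TopologicalSpace X] [TopologicalSpace E] (G : Type) [Group G]
    [MulAction G E] (q : E → X) {N : ℕ} (U : Fin N → Set X) (s : Fin N → X → E) (W : Set X) :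
    Prop :=
  ∃ (e : E) (t : X → E), ContinuousOn t W ∧ ∀ y ∈ W, q (t y) = y ∧
    ∃ (j : Fin N) (g : G), e ∈ (fun x => g • s j x) '' U j ∧ t y ∈ (fun x => g • s j x) '' U j

end Pool.Agent.MP_12aee2_gt
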