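import Mathlib
import Pool.Agent.MP_12aee2_gt.h38.Defs2

/-!
The distance that a partition of unity defines through a regular covering.
-/

open Set Filter Topology

namespace Pool.Agent.MP_12aee2_gt.H38

variable {X E : Type} (G : Type) [Group G] [MulAction G E] {N : ℕ}

/-- two points lie in the same sheet over `U j` -/
def same (q : E → X) (s : Fin N → X → E) (j : Fin N) (e e' : E) : Prop :=
  ∃ g : G, e = g • s j (q e) ∧ e' = g • s j (q e')

open Classical in
/-- the contribution of one function -/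
noncomputable def tm (q : E → X) (s : Fin N → X → E) (f : Fin N → X → ℝ) (j : Fin N) (e e' : E) :
    ℝ :=
  if same G q s j e e' then |f j (q e) - f j (q e')| else f j (q e) + f j (q e')

/-- the distance upstairs -/
noncomputable def du (q : E → X) (s : Fin N → X → E) (f : Fin N → X → ℝ) (e e' : E) : ℝ :=
  ∑ j, tm G q s f j e e'

variable {G} {q : E → X} {s : Fin N → X → E} {f : Fin N → X → ℝ} {U : Fin N → Set X}

theorem tm_ge (h0 : ∀ i x, 0 ≤ f i x) (j : Fin N) (e e' : E) :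
    |f j (q e) - f j (q e')| ≤ tm G q s f j e e' := by
  unfold tm
  split_ifs
  · exact le_rfl
  · exact abs_le.2 ⟨by linarith [h0 j (q e), h0 j (q e')], by linarith [h0 j (q e), h0 j (q e')]⟩

theorem du_ge (h0 : ∀ i x, 0 ≤ f i x) (e e' : E) :
    ∑ j, |f j (q e) - f j (q e')| ≤ du G q s f e e' :=
  Finset.sum_le_sum fun j _ => tm_ge h0 j e e'

theorem du_nonneg (h0 : ∀ i x, 0 ≤ f i x) (e e' : E) : 0 ≤ du G q s f e e' :=
  (Finset.sum_nonneg fun _ _ => abs_nonneg _).trans (du_ge h0 e e')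

theorem du_symm (e e' : E) : du G q s f e e' = du G q s f e' e := by
  refine Finset.sum_congr rfl fun j _ => ?_
  have : same G q s j e e' ↔ same G q s j e' e :=
    ⟨fun ⟨g, h1, h2⟩ => ⟨g, h2, h1⟩, fun ⟨g, h1, h2⟩ => ⟨g, h2, h1⟩⟩
  unfold tm
  rw [this, abs_sub_comm, add_comm]

variable [TopologicalSpace X] [TopologicalSpace E]

theorem du_tri (hq : IsQuotientCoveringMap q G) (h0 : ∀ i x, 0 ≤ f i x) (e e' e'' : E) :
    du G q s f e e'' ≤ du G q s f e e' + du G q s f e' e'' := by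
  have := hq.isCancelSMul
  rw [du, du, du, ← Finset.sum_add_distrib]
  refine Finset.sum_le_sum fun j _ => ?_
  have h1 := abs_le.1 (tm_ge (G := G) (q := q) (s := s) h0 j e e')
  have h2 := abs_le.1 (tm_ge (G := G) (q := q) (s := s) h0 j e' e'')
  by_cases h : same G q s j e e''
  · rw [tm, if_pos h, abs_le]
    constructor <;> linarith [h1.1, h1.2, h2.1, h2.2]
  · rw [tm, if_neg h]
    by_cases h3 : same G q s j e e'
    · have h4 : ¬ same G q s j e' e'' := by
        rintro ⟨g', h5, h6⟩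
        obtain ⟨g, h7, h8⟩ := h3
        have : g = g' := IsCancelSMul.right_cancel g g' _ (h8.symm.trans h5)
        exact h ⟨g, h7, this ▸ h6⟩
      have h9 : tm G q s f j e' e'' = f j (q e') + f j (q e'') := if_neg h4
      linarith [h1.2]
    · have h9 : tm G q s f j e e' = f j (q e) + f j (q e') := if_neg h3
      linarith [h2.1]

theorem du_smul (hq : IsQuotientCoveringMap q G) (g : G) (e e' : E) :
    du G q s f (g • e) (g • e') = du G q s f e e' := by
  refine Finset.sum_congr rfl fun j _ => ?_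
  have : same G q s j (g • e) (g • e') ↔ same G q s j e e' := by
    simp only [same, hq.map_smul]
    refine ⟨fun ⟨k, h1, h2⟩ => ⟨g⁻¹ * k, ?_, ?_⟩, fun ⟨k, h1, h2⟩ => ⟨g * k, ?_, ?_⟩⟩
    · rw [mul_smul, ← h1, inv_smul_smul]
    · rw [mul_smul, ← h2, inv_smul_smul]
    · rw [mul_smul, ← h1]
    · rw [mul_smul, ← h2]
  unfold tm
  rw [this, hq.map_smul, hq.map_smul]

theorem ex_smul (hq : IsQuotientCoveringMap q G) {e e' : E} (h : q e = q e') :
    ∃ g : G, e = g • e' := by
  obtain ⟨g, hg⟩ := hq.apply_eq_iff_mem_orbit.1 h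
  exact ⟨g, hg.symm⟩

theorem du_far (hq : IsQuotientCoveringMap q G) (hs : ∀ x, ∑ i, f i x = 1) {e e' : E}
    (h : q e = q e') (hne : e ≠ e') : du G q s f e e' = 2 := by
  have : ∀ j, tm G q s f j e e' = 2 * f j (q e) := by
    intro j
    rw [tm, if_neg, ← h, two_mul]
    rintro ⟨g, h1, h2⟩
    exact hne (by rw [h1, h2, h])
  simp only [du, this]
  rw [← Finset.mul_sum, hs, mul_one]

theorem loc (hq : IsQuotientCoveringMap q G) (ho : ∀ j, IsOpen (U j)) (hcov : ∀ x, ∃ j, x ∈ U j)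
    (hsec : ∀ j, ContinuousOn (s j) (U j) ∧ ∀ x ∈ U j, q (s j x) = x)
    (h0 : ∀ i x, 0 ≤ f i x) (hsub : ∀ i x, 0 < f i x → x ∈ U i) (e0 : E) :
    ∃ t : X → E, ContinuousAt t (q e0) ∧ t (q e0) = e0 ∧
      ∀ᶠ y in 𝓝 (q e0), q (t y) = y ∧ du G q s f e0 (t y) ≤ ∑ j, |f j (q e0) - f j y| := by
  have := hq.toContinuousConstSMul
  have hl : ∀ j, q e0 ∈ U j → ∃ g : G, e0 = g • s j (q e0) ∧
      ContinuousAt (fun y => g • s j y) (q e0) ∧ ∀ᶠ y in 𝓝 (q e0), q (g • s j y) = y := by
    intro j hj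
    obtain ⟨g, hg⟩ := ex_smul hq ((hsec j).2 _ hj).symm
    refine ⟨g, hg, ((hsec j).1.continuousAt ((ho j).mem_nhds hj)).const_smul g, ?_⟩
    filter_upwards [(ho j).mem_nhds hj] with y hy
    rw [hq.map_smul, (hsec j).2 y hy]
  obtain ⟨j0, hj0⟩ := hcov (q e0)
  obtain ⟨g0, h1, h2, h3⟩ := hl j0 hj0
  refine ⟨fun y => g0 • s j0 y, h2, h1.symm, ?_⟩
  obtain ⟨Nb, hNb, hdis⟩ := hq.disjoint e0
  have h4 : ∀ j, ∀ᶠ y in 𝓝 (q e0),
      tm G q s f j e0 (g0 • s j0 y) ≤ |f j (q e0) - f j y| := by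
    intro j
    by_cases hj : q e0 ∈ U j
    · obtain ⟨g, h5, h6, h7⟩ := hl j hj
      filter_upwards [h3, h7, h2.preimage_mem_nhds (t := Nb) (h1 ▸ hNb),
        h6.preimage_mem_nhds (t := Nb) (h5 ▸ hNb)] with y h8 h9 h10 h11
      obtain ⟨k, hk⟩ := ex_smul hq (h8.trans h9.symm)
      have hk1 : k = 1 := hdis k ⟨_, ⟨_, h11, hk.symm⟩, h10⟩
      rw [hk1, one_smul] at hk
      rw [tm, if_pos ⟨g, h5, by rw [h8]; exact hk⟩, h8]
    · have h5 : f j (q e0) = 0 := le_antisymm (not_lt.1 fun h => hj (hsub _ _ h)) (h0 _ _)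
      filter_upwards [h3] with y h8
      unfold tm
      rw [h8, h5]
      split_ifs
      · exact le_rfl
      · rw [zero_add, zero_sub, abs_neg]
        exact le_abs_self _
  filter_upwards [h3, eventually_all.2 h4] with y h5 h6
  exact ⟨h5, Finset.sum_le_sum fun j _ => h6 j⟩

theorem metric (hq : IsQuotientCoveringMap q G) (ho : ∀ j, IsOpen (U j))
    (hsec : ∀ j, ContinuousOn (s j) (U j) ∧ ∀ x ∈ U j, q (s j x) = x)
    (hc : ∀ i, Continuous (f i)) (h0 : ∀ i x, 0 ≤ f i x) (hs : ∀ x, ∑ i, f i x = 1)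
    (hsub : ∀ i x, 0 < f i x → x ∈ U i) :
    ∃ D : X → X → ℝ, (∀ x, D x x = 0) ∧ (∀ x y, D x y = D y x) ∧
      (∀ x y z, D x z ≤ D x y + D y z) ∧ (∀ x, Continuous (D x)) ∧
      (∀ x y, ∑ j, |f j x - f j y| ≤ D x y) ∧
      (∀ x, ∀ᶠ y in 𝓝 x, D x y ≤ ∑ j, |f j x - f j y|) ∧
      ∀ (x : X) (W : Set X), (∀ y ∈ W, D x y < 1) → LiftsIntoStar G q U s W := by
  classical
  have hcov : ∀ x, ∃ j, x ∈ U j := by
    intro x
    by_contra hh
    have h1 : ∀ i, f i x ≤ 0 := fun i => not_lt.1 fun h => hh ⟨i, hsub i x h⟩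
    have h2 := Finset.sum_nonpos (s := Finset.univ) fun j _ => h1 j
    rw [hs x] at h2
    linarith
  choose l hl using hq.surjective
  let D : X → X → ℝ := fun x y => ⨅ g : G, du G q s f (l x) (g • l y)
  have hb : ∀ x y, BddBelow (range fun g : G => du G q s f (l x) (g • l y)) := fun x y =>
    ⟨0, by rintro _ ⟨g, rfl⟩; exact du_nonneg h0 _ _⟩
  have hle : ∀ e e', D (q e) (q e') ≤ du G q s f e e' := by
    intro e e'
    obtain ⟨g, hg⟩ := ex_smul hq (hl (q e))
    obtain ⟨k, hk⟩ := ex_smul hq (hl (q e')).symm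
    refine (ciInf_le (hb _ _) (g * k)).trans (le_of_eq ?_)
    rw [mul_smul, ← hk, hg, du_smul hq]
  have hlt : ∀ x y t, D x y < t → ∃ e', q e' = y ∧ du G q s f (l x) e' < t := by
    intro x y t h
    obtain ⟨g, hg⟩ := exists_lt_of_ciInf_lt h
    exact ⟨_, by rw [hq.map_smul, hl], hg⟩
  have hge : ∀ x y, ∑ j, |f j x - f j y| ≤ D x y := fun x y => le_ciInf fun g => by
    have := du_ge (G := G) (q := q) (s := s) h0 (l x) (g • l y)
    rwa [hq.map_smul, hl, hl] at this
  have hsy : ∀ x y, D x y ≤ D y x := fun x y => le_ciInf fun g => by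
    have := hle (l x) (g⁻¹ • l y)
    rw [hq.map_smul, hl, hl, ← du_smul hq g, smul_inv_smul, du_symm] at this
    exact this
  have htri : ∀ x y z, D x z ≤ D x y + D y z := by
    intro x y z
    refine le_ciInf_add_ciInf fun g k => ?_
    have h1 := hle (l x) (g • k • l z)
    rw [hq.map_smul, hq.map_smul, hl, hl] at h1
    have h2 := du_tri (s := s) hq h0 (l x) (g • l y) (g • k • l z)
    rw [du_smul hq] at h2
    exact h1.trans h2
  have hloc : ∀ x, ∀ᶠ y in 𝓝 x, D x y ≤ ∑ j, |f j x - f j y| := by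
    intro x
    obtain ⟨t, -, -, h1⟩ := loc (f := f) hq ho hcov hsec h0 hsub (l x)
    rw [hl] at h1
    filter_upwards [h1] with y hy
    have := hle (l x) (t y)
    rw [hl, hy.1] at this
    exact this.trans hy.2
  have hsmall : ∀ (x : X) (ε : ℝ), 0 < ε → ∀ᶠ y in 𝓝 x, ∑ j, |f j x - f j y| < ε := by
    intro x ε hε
    have : Continuous fun y => ∑ j, |f j x - f j y| := by fun_prop
    exact this.continuousAt.eventually_lt_const (by simpa using hε)
  refine ⟨D, fun x => le_antisymm ?_ ((Finset.sum_nonneg fun _ _ => abs_nonneg _).trans (hge x x)),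
    fun x y => le_antisymm (hsy x y) (hsy y x), htri, fun x => ?_, hge, hloc, fun x W hW => ?_⟩
  · simpa using (hloc x).self_of_nhds
  · refine continuous_iff_continuousAt.2 fun y => Metric.tendsto_nhds.2 fun ε hε => ?_
    filter_upwards [hloc y, hsmall y ε hε] with z h1 h2
    rw [Real.dist_eq, abs_lt]
    constructor <;> linarith [htri x y z, htri x z y, hsy z y]
  · let t : X → E := fun y =>
      if h : ∃ e', q e' = y ∧ du G q s f (l x) e' < 1 then h.choose else l x
    have ht : ∀ y ∈ W, q (t y) = y ∧ du G q s f (l x) (t y) < 1 := by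
      intro y hy
      have h := hlt x y 1 (hW y hy)
      simp only [t, dif_pos h]
      exact h.choose_spec
    have huniq : ∀ y e', q e' = y → du G q s f (l x) e' < 1 → t y = e' := by
      intro y e' h1 h2
      have h : ∃ e', q e' = y ∧ du G q s f (l x) e' < 1 := ⟨e', h1, h2⟩
      simp only [t, dif_pos h]
      by_contra hne
      have h3 := du_far (s := s) hq hs (h.choose_spec.1.trans h1.symm) hne
      have h4 := du_tri (s := s) hq h0 h.choose (l x) e'
      rw [du_symm _ (l x)] at h4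
      linarith [h.choose_spec.2]
    refine ⟨l x, t, fun y hy => ?_, fun y hy => ⟨(ht y hy).1, ?_⟩⟩
    · obtain ⟨t0, h1, -, h3⟩ := loc (f := f) hq ho hcov hsec h0 hsub (t y)
      rw [(ht y hy).1] at h1 h3
      refine (h1.congr ?_).continuousWithinAt
      filter_upwards [h3, hsmall y _ (sub_pos.2 (ht y hy).2)] with z h4 h5
      refine (huniq z _ h4.1 ?_).symm
      linarith [du_tri (s := s) hq h0 (l x) (t y) (t0 z), h4.2]
    · by_contra hno
      have h1 : ∀ j, tm G q s f j (l x) (t y) = f j (q (l x)) + f j (q (t y)) := by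
        intro j
        unfold tm
        split_ifs with h
        · obtain ⟨g, h2, h3⟩ := h
          rcases (h0 j (q (l x))).eq_or_lt with h4 | h4
          · rw [← h4, zero_sub, abs_neg, zero_add, abs_of_nonneg (h0 _ _)]
          rcases (h0 j (q (t y))).eq_or_lt with h5 | h5
          · rw [← h5, sub_zero, add_zero, abs_of_nonneg (h0 _ _)]
          exact absurd ⟨j, g, ⟨_, hsub _ _ h4, h2.symm⟩, ⟨_, hsub _ _ h5, h3.symm⟩⟩ hno
        · rfl
      have h2 := (ht y hy).2
      simp only [du, h1, Finset.sum_add_distrib, hs] at h2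
      linarith

end Pool.Agent.MP_12aee2_gt.H38
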