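import Mathlib

/-!
Linear algebra for the covering-dimension bound: sums of minors against the largest
determinant of a zonotope.
-/

open Matrix

namespace Pool.Agent.MP_12aee2_gt.H38

variable {N m : Type} [Fintype N] [Fintype m] [DecidableEq m] [DecidableEq N]

omit [DecidableEq N] in
theorem sum_det_le_fact (C : Matrix N m ℝ) (h : ∀ k, ∑ i, |C i k| ≤ 1) :
    ∑ I : m → N, |(C.submatrix I id).det| ≤ ((Fintype.card m).factorial : ℝ) := by
  have h1 : ∀ I : m → N, |(C.submatrix I id).det|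
      ≤ ∑ s : Equiv.Perm m, ∏ k, |C (I (s k)) k| := by
    intro I
    rw [Matrix.det_apply']
    refine (Finset.abs_sum_le_sum_abs _ _).trans (Finset.sum_le_sum fun s _ => ?_)
    rw [abs_mul, Finset.abs_prod]
    have : |((Equiv.Perm.sign s : ℤ) : ℝ)| = 1 := by
      rcases Int.units_eq_one_or (Equiv.Perm.sign s) with h | h <;> simp [h]
    rw [this, one_mul]
    exact le_of_eq rfl
  have h2 : ∀ s : Equiv.Perm m, ∑ I : m → N, ∏ k, |C (I (s k)) k| ≤ 1 := by
    intro s
    have e1 : ∑ I : m → N, ∏ k, |C (I (s k)) k| = ∑ J : m → N, ∏ k, |C (J k) k| :=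
      Fintype.sum_equiv (Equiv.arrowCongr s.symm (Equiv.refl N)) _ _ (fun I => by
        simp [Equiv.arrowCongr])
    rw [e1, ← Fintype.piFinset_univ, ← Finset.prod_univ_sum (fun _ => Finset.univ)
      (fun k i => |C i k|)]
    exact Finset.prod_le_one (fun k _ => Finset.sum_nonneg fun i _ => abs_nonneg _)
      (fun k _ => h k)
  calc ∑ I : m → N, |(C.submatrix I id).det|
      ≤ ∑ I : m → N, ∑ s : Equiv.Perm m, ∏ k, |C (I (s k)) k| :=
        Finset.sum_le_sum fun I _ => h1 I
    _ = ∑ s : Equiv.Perm m, ∑ I : m → N, ∏ k, |C (I (s k)) k| := Finset.sum_comm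
    _ ≤ ∑ _s : Equiv.Perm m, (1 : ℝ) := Finset.sum_le_sum fun s _ => h2 s
    _ = _ := by simp [Fintype.card_perm]

theorem zon (W : Matrix N m ℝ) (D : ℝ)
    (h : ∀ A : Matrix m N ℝ, (∀ k i, |A k i| ≤ 1) → |(A * W).det| ≤ D) :
    ∑ I : m → N, |(W.submatrix I id).det| ≤ ((Fintype.card m).factorial : ℝ) * D := by
  have hD : 0 ≤ D := (abs_nonneg _).trans (h 0 (by simp))
  have hc : IsCompact (Set.Icc (-1 : m → N → ℝ) 1) := isCompact_Icc
  have hcont : Continuous fun A : m → N → ℝ => |(Matrix.of A * W).det| := by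
    refine Continuous.abs (Continuous.matrix_det (Continuous.matrix_mul ?_ continuous_const))
    exact continuous_id
  have hmem : ∀ A : m → N → ℝ, A ∈ Set.Icc (-1 : m → N → ℝ) 1 ↔ ∀ k i, |A k i| ≤ 1 := by
    intro A
    simp only [Set.mem_Icc, Pi.le_def, abs_le, Pi.neg_apply, Pi.one_apply]
    exact ⟨fun hh k i => ⟨hh.1 k i, hh.2 k i⟩, fun hh => ⟨fun k i => (hh k i).1,
      fun k i => (hh k i).2⟩⟩
  obtain ⟨A0, hA0, hmax⟩ := hc.exists_isMaxOn ⟨0, (hmem 0).2 (by simp)⟩ hcont.continuousOn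
  have hmax' : ∀ A : Matrix m N ℝ, (∀ k i, |A k i| ≤ 1) →
      |(A * W).det| ≤ |(Matrix.of A0 * W).det| := fun A hA => hmax ((hmem A).2 hA)
  set U : Matrix m m ℝ := Matrix.of A0 * W with hU
  have hUD : |U.det| ≤ D := h _ ((hmem A0).1 hA0)
  by_cases h0 : U.det = 0
  · have : ∀ I : m → N, |(W.submatrix I id).det| ≤ 0 := by
      intro I
      have e : W.submatrix I id = (Matrix.of fun k i => if I k = i then (1 : ℝ) else 0) * W := by
        ext k a
        simp [Matrix.mul_apply]
      rw [e]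
      refine (hmax' _ ?_).trans (by rw [h0]; simp)
      intro k i
      by_cases hh : I k = i <;> simp [hh]
    exact (Finset.sum_nonpos fun I _ => this I).trans (by positivity)
  · have hu : IsUnit U.det := isUnit_iff_ne_zero.2 h0
    set C : Matrix N m ℝ := W * U⁻¹ with hC
    have hW : W = C * U := by
      rw [hC, Matrix.mul_assoc, Matrix.nonsing_inv_mul _ hu, Matrix.mul_one]
    have hcol : ∀ k, ∑ i, |C i k| ≤ 1 := by
      intro k
      let s : N → ℝ := fun i => if 0 ≤ C i k then 1 else -1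
      have e1 : (Matrix.of A0).updateRow k s * W
          = U.updateRow k (∑ j, (∑ i, s i * C i j) • U j) := by
        ext a b
        by_cases hak : a = k
        · subst hak
          rw [Matrix.mul_apply]
          simp only [Matrix.updateRow_self, Finset.sum_apply, Pi.smul_apply, smul_eq_mul,
            Finset.sum_mul]
          rw [Finset.sum_comm]
          refine Finset.sum_congr rfl fun i _ => ?_
          conv_lhs => rw [hW, Matrix.mul_apply, Finset.mul_sum]
          exact Finset.sum_congr rfl fun j _ => by ring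
        · rw [Matrix.mul_apply]
          simp only [Matrix.updateRow_ne hak]
          rw [hU, Matrix.mul_apply]
      have e2 : ∑ i, s i * C i k = ∑ i, |C i k| := by
        refine Finset.sum_congr rfl fun i _ => ?_
        by_cases hh : 0 ≤ C i k
        · simp [s, hh, abs_of_nonneg hh]
        · simp [s, hh, abs_of_neg (not_le.1 hh)]
      have h3 := hmax' ((Matrix.of A0).updateRow k s) (by
        intro a i
        by_cases hak : a = k
        · subst hak
          by_cases hh : 0 ≤ C i a <;> simp [s, hh]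
        · rw [Matrix.updateRow_ne hak]
          exact (hmem A0).1 hA0 a i)
      rw [e1, Matrix.det_updateRow_sum, e2, smul_eq_mul, abs_mul] at h3
      have hp : 0 < |U.det| := abs_pos.2 h0
      have h4 : |∑ i, abs (C i k)| ≤ 1 := by
        by_contra hh
        push Not at hh
        nlinarith
      exact (le_abs_self _).trans h4
    have e3 : ∀ I : m → N, |(W.submatrix I id).det| = |(C.submatrix I id).det| * |U.det| := by
      intro I
      rw [← abs_mul, ← Matrix.det_mul]
      congr 2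
      conv_lhs => rw [hW]
      ext a b
      simp [Matrix.mul_apply]
    simp only [e3]
    rw [← Finset.sum_mul]
    exact mul_le_mul (sum_det_le_fact C hcol) hUD (abs_nonneg _) (by positivity)

/-- values in the first column, gradients in the others -/
def ext1 {N : Type} {d : ℕ} (g : N → ℝ) (V : Matrix N (Fin d) ℝ) : Matrix N (Fin (d + 1)) ℝ :=
  Matrix.of fun i => Fin.cons (g i) (V i)

omit [DecidableEq N] in
theorem laplace {d : ℕ} (g : N → ℝ) (V : Matrix N (Fin d) ℝ) (D : ℝ) (hg : ∀ i, 0 ≤ g i)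
    (hs : ∑ i, g i = 1)
    (h : ∀ A : Matrix (Fin d) N ℝ, (∀ k i, |A k i| ≤ 1) → |(A * V).det| ≤ D)
    (A : Matrix (Fin (d + 1)) N ℝ) (hA : ∀ k i, |A k i| ≤ 1) :
    |(A * ext1 g V).det| ≤ (d + 1) * D := by
  rw [Matrix.det_succ_column_zero]
  refine (Finset.abs_sum_le_sum_abs _ _).trans ?_
  have : ∀ k : Fin (d + 1), |(-1) ^ (k : ℕ) * (A * ext1 g V) k 0 *
      ((A * ext1 g V).submatrix k.succAbove Fin.succ).det| ≤ D := by
    intro k
    have e1 : (A * ext1 g V).submatrix k.succAbove Fin.succ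
        = (A.submatrix k.succAbove id) * V := by
      ext a b
      simp [Matrix.mul_apply, ext1]
    have e2 : |(A * ext1 g V) k 0| ≤ 1 := by
      rw [Matrix.mul_apply]
      refine (Finset.abs_sum_le_sum_abs _ _).trans ?_
      rw [← hs]
      refine Finset.sum_le_sum fun i _ => ?_
      have : ext1 g V i 0 = g i := by simp [ext1]
      rw [this, abs_mul, abs_of_nonneg (hg i)]
      exact mul_le_of_le_one_left (hg i) (hA k i)
    have e3 := h (A.submatrix k.succAbove id) (fun a i => hA _ _)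
    rw [e1, abs_mul, abs_mul, abs_pow, abs_neg, abs_one, one_pow, one_mul]
    exact (mul_le_of_le_one_left (abs_nonneg _) e2).trans e3
  refine (Finset.sum_le_sum fun k _ => this k).trans (le_of_eq ?_)
  simp

theorem sympl {n : ℕ} (X Om : Matrix (Fin (2 * n)) (Fin (2 * n)) ℝ) (b : ℝ) (hb : 0 ≤ b)
    (h : ∀ k l, |(X * Om * Xᵀ) k l| ≤ b) :
    |(X * Om).det| ≤ ((2 * n).factorial : ℝ) * b ^ n * √|Om.det| := by
  have h1 : |(X * Om * Xᵀ).det| ≤ ((2 * n).factorial : ℝ) * b ^ (2 * n) := by
    have := Matrix.det_le (A := X * Om * Xᵀ) (abv := AbsoluteValue.abs) (x := b) h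
    simpa using this
  have hf : (1 : ℝ) ≤ ((2 * n).factorial : ℝ) := by
    exact_mod_cast Nat.one_le_iff_ne_zero.2 (Nat.factorial_ne_zero _)
  refine abs_le_of_sq_le_sq' ?_ (by positivity) |> fun hh => abs_le.2 hh
  rw [mul_pow, Real.sq_sqrt (abs_nonneg _)]
  have e : (X * Om).det ^ 2 = (X * Om * Xᵀ).det * Om.det := by
    simp only [Matrix.det_mul, Matrix.det_transpose]; ring
  rw [e]
  refine (le_abs_self _).trans ?_
  rw [abs_mul]
  refine mul_le_mul_of_nonneg_right (h1.trans ?_) (abs_nonneg _)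
  rw [mul_pow, ← pow_mul, mul_comm n 2]
  refine mul_le_mul_of_nonneg_right ?_ (by positivity)
  nlinarith

/-- The pointwise bound. -/
theorem point {n : ℕ} (g : N → ℝ) (V : Matrix N (Fin (2 * n)) ℝ)
    (Om : Matrix (Fin (2 * n)) (Fin (2 * n)) ℝ) (b : ℝ) (hb : 0 ≤ b) (hg : ∀ i, 0 ≤ g i)
    (hs : ∑ i, g i = 1)
    (h : ∀ A : Matrix (Fin (2 * n)) N ℝ, (∀ k i, |A k i| ≤ 1) →
      ∃ X : Matrix (Fin (2 * n)) (Fin (2 * n)) ℝ, A * V = X * Om ∧
        ∀ k l, |(X * Om * Xᵀ) k l| ≤ b) :
    ∑ I : Fin (2 * n + 1) → N, |((ext1 g V).submatrix I id).det|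
      ≤ ((2 * n + 1).factorial : ℝ) ^ 2 * b ^ n * √|Om.det| := by
  have h1 := zon (ext1 g V) _ (laplace g V (((2 * n).factorial : ℝ) * b ^ n * √|Om.det|) hg hs
    (fun A hA => by
      obtain ⟨X, e, hX⟩ := h A hA
      rw [e]
      exact sympl X Om b hb hX))
  refine h1.trans (le_of_eq ?_)
  rw [Fintype.card_fin, Nat.factorial_succ]
  push_cast
  ring

end Pool.Agent.MP_12aee2_gt.H38
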