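import Mathlib
import Pool.Agent.MP_12aee2_gt.h38.Zon

/-!
The measure of the set of clocks that produce a tie of `d + 1` indices inside one chart.
-/

open Matrix MeasureTheory Set

namespace Pool.Agent.MP_12aee2_gt.H38

variable {d : ℕ} {K : Type} [Fintype K] [DecidableEq K]

/-- the point read from the coordinates -/
noncomputable def yy (d : ℕ) (K : Type) [Fintype K] :
    (Fin (d + 1) ⊕ K → ℝ) →L[ℝ] (Fin d → ℝ) :=
  ContinuousLinearMap.pi fun a : Fin d =>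
    ContinuousLinearMap.proj (R := ℝ) (φ := fun _ : Fin (d + 1) ⊕ K => ℝ) (Sum.inl a.succ)

/-- a coordinate -/
noncomputable def pj (i : Fin (d + 1) ⊕ K) : (Fin (d + 1) ⊕ K → ℝ) →L[ℝ] ℝ :=
  ContinuousLinearMap.proj (R := ℝ) (φ := fun _ : Fin (d + 1) ⊕ K => ℝ) i

/-- the exponential factor -/
noncomputable def ee (g : Fin (d + 1) ⊕ K → (Fin d → ℝ) → ℝ) (i : Fin (d + 1) ⊕ K)
    (z : Fin (d + 1) ⊕ K → ℝ) : ℝ :=
  Real.exp (-(z (Sum.inl 0) * g i (yy d K z)))

/-- its derivative -/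
noncomputable def ed (g : Fin (d + 1) ⊕ K → (Fin d → ℝ) → ℝ)
    (G : Fin (d + 1) ⊕ K → (Fin d → ℝ) → (Fin d → ℝ) →L[ℝ] ℝ) (i : Fin (d + 1) ⊕ K)
    (z : Fin (d + 1) ⊕ K → ℝ) : (Fin (d + 1) ⊕ K → ℝ) →L[ℝ] ℝ :=
  ee g i z • -(z (Sum.inl 0) • (G i (yy d K z)).comp (yy d K) + g i (yy d K z) • pj (Sum.inl 0))

/-- the map whose image contains the bad clocks -/
noncomputable def psi (g : Fin (d + 1) ⊕ K → (Fin d → ℝ) → ℝ) (z : Fin (d + 1) ⊕ K → ℝ) :
    Fin (d + 1) ⊕ K → ℝ :=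
  Sum.elim (fun k => ee g (Sum.inl k) z) (fun j => z (Sum.inr j) * ee g (Sum.inr j) z)

/-- its derivative -/
noncomputable def psd (g : Fin (d + 1) ⊕ K → (Fin d → ℝ) → ℝ)
    (G : Fin (d + 1) ⊕ K → (Fin d → ℝ) → (Fin d → ℝ) →L[ℝ] ℝ) (z : Fin (d + 1) ⊕ K → ℝ) :
    (Fin (d + 1) ⊕ K → ℝ) →L[ℝ] (Fin (d + 1) ⊕ K → ℝ) :=
  ContinuousLinearMap.pi (Sum.elim (fun k => ed g G (Sum.inl k) z)
    (fun j => z (Sum.inr j) • ed g G (Sum.inr j) z + ee g (Sum.inr j) z • pj (Sum.inr j)))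

/-- values and gradients of the tied functions -/
noncomputable def mm (g : Fin (d + 1) ⊕ K → (Fin d → ℝ) → ℝ)
    (G : Fin (d + 1) ⊕ K → (Fin d → ℝ) → (Fin d → ℝ) →L[ℝ] ℝ) (y : Fin d → ℝ) :
    Matrix (Fin (d + 1)) (Fin (d + 1)) ℝ :=
  ext1 (fun k => g (Sum.inl k) y) (Matrix.of fun k a => G (Sum.inl k) y (Pi.single a 1))

variable {g : Fin (d + 1) ⊕ K → (Fin d → ℝ) → ℝ}
  {G : Fin (d + 1) ⊕ K → (Fin d → ℝ) → (Fin d → ℝ) →L[ℝ] ℝ}

omit [DecidableEq K] in
theorem has_ee (i : Fin (d + 1) ⊕ K) (z : Fin (d + 1) ⊕ K → ℝ)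
    (h : HasFDerivAt (g i) (G i (yy d K z)) (yy d K z)) : HasFDerivAt (ee g i) (ed g G i z) z := by
  have h1 : HasFDerivAt (fun z => g i (yy d K z)) ((G i (yy d K z)).comp (yy d K)) z :=
    h.comp z (yy d K).hasFDerivAt
  have h0 : HasFDerivAt (fun z : Fin (d + 1) ⊕ K → ℝ => z (Sum.inl 0)) (pj (Sum.inl 0)) z :=
    (pj (K := K) (d := d) (Sum.inl 0)).hasFDerivAt
  exact ((h0.mul h1).neg).exp

omit [DecidableEq K] in
theorem has_psi (z : Fin (d + 1) ⊕ K → ℝ)
    (h : ∀ i, HasFDerivAt (g i) (G i (yy d K z)) (yy d K z)) :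
    HasFDerivAt (psi g) (psd g G z) z := by
  refine hasFDerivAt_pi.2 ?_
  rintro (k | j)
  · exact has_ee _ z (h _)
  · have h0 : HasFDerivAt (fun z : Fin (d + 1) ⊕ K → ℝ => z (Sum.inr j)) (pj (Sum.inr j)) z :=
      (pj (K := K) (d := d) (Sum.inr j)).hasFDerivAt
    exact h0.mul (has_ee _ z (h _))

theorem yy_inr (j : K) : yy d K (Pi.single (Sum.inr j) 1) = 0 := by
  ext a; simp [yy]

theorem yy_zero : yy d K (Pi.single (Sum.inl 0) 1) = 0 := by
  ext a; simp [yy, Pi.single_apply]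

theorem yy_succ (a : Fin d) : yy d K (Pi.single (Sum.inl a.succ) 1) = Pi.single a 1 := by
  ext b; simp [yy, Pi.single_apply]

theorem ed_inr (i : Fin (d + 1) ⊕ K) (z : Fin (d + 1) ⊕ K → ℝ) (j : K) :
    ed g G i z (Pi.single (Sum.inr j) 1) = 0 := by
  simp [ed, yy_inr, pj]

theorem det_psd (z : Fin (d + 1) ⊕ K → ℝ) (hs : ∑ i, g i (yy d K z) = 1)
    (hz : 0 < z (Sum.inl 0)) :
    |(psd g G z).det| = Real.exp (-z (Sum.inl 0)) * z (Sum.inl 0) ^ d
      * |(mm g G (yy d K z)).det| := by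
  rw [ContinuousLinearMap.det, ← LinearMap.det_toMatrix']
  set T := LinearMap.toMatrix' (psd g G z : (Fin (d + 1) ⊕ K → ℝ) →ₗ[ℝ] (Fin (d + 1) ⊕ K → ℝ))
    with hT
  have hTe : ∀ i l, T i l = psd g G z (Pi.single l 1) i := by
    intro i l
    rw [hT, LinearMap.toMatrix'_apply]
    rfl
  have h12 : T.toBlocks₁₂ = 0 := by
    ext k j
    simp [Matrix.toBlocks₁₂, hTe, psd, ed_inr]
  have h22 : T.toBlocks₂₂ = Matrix.diagonal fun j => ee g (Sum.inr j) z := by
    ext j l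
    simp [Matrix.toBlocks₂₂, hTe, psd, ed_inr, pj, Pi.single_apply, Matrix.diagonal_apply]
  have h11 : T.toBlocks₁₁ = Matrix.diagonal (fun k => -ee g (Sum.inl k) z) * mm g G (yy d K z)
      * Matrix.diagonal (Fin.cons 1 fun _ => z (Sum.inl 0)) := by
    ext k l
    rw [Matrix.mul_diagonal, Matrix.diagonal_mul]
    refine Fin.cases ?_ (fun a => ?_) l
    · simp [Matrix.toBlocks₁₁, hTe, psd, ed, yy_zero, pj, mm, ext1]
    · simp [Matrix.toBlocks₁₁, hTe, psd, ed, yy_succ, pj, mm, ext1, Pi.single_apply,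
        (Fin.succ_ne_zero a).symm]
      ring
  rw [← Matrix.fromBlocks_toBlocks T, h12, Matrix.det_fromBlocks_zero₁₂, h11, h22,
    Matrix.det_mul, Matrix.det_mul, Matrix.det_diagonal, Matrix.det_diagonal, Matrix.det_diagonal,
    Fin.prod_cons]
  have hp : (∏ k, ee g (Sum.inl k) z) * ∏ j, ee g (Sum.inr j) z = Real.exp (-z (Sum.inl 0)) := by
    rw [← Fintype.prod_sum_type (fun i => ee g i z)]
    simp only [ee]
    rw [← Real.exp_sum, Finset.sum_neg_distrib, ← Finset.mul_sum, hs, mul_one]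
  have hpos : ∀ i, |ee g i z| = ee g i z := fun i => abs_of_pos (Real.exp_pos _)
  rw [← hp]
  simp only [abs_mul, Finset.abs_prod, abs_neg, hpos, abs_one, one_mul, Finset.prod_const,
    Finset.card_univ, Fintype.card_fin, abs_pow, abs_of_pos hz]
  ring

theorem gam (d : ℕ) : ∫⁻ t in Ioi (0 : ℝ), ENNReal.ofReal (Real.exp (-t) * t ^ d)
    = (d.factorial : ENNReal) := by
  have hs : (0 : ℝ) < d + 1 := by positivity
  have h1 := Real.GammaIntegral_convergent hs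
  have h2 := Real.Gamma_eq_integral hs
  rw [Real.Gamma_nat_eq_factorial] at h2
  simp only [add_sub_cancel_right, Real.rpow_natCast] at h1 h2
  rw [← ofReal_integral_eq_lintegral_ofReal h1, ← h2]
  · simp
  · filter_upwards [ae_restrict_mem measurableSet_Ioi] with t ht
    have : (0 : ℝ) < t := ht
    simp only [Pi.zero_apply]
    positivity

omit [DecidableEq K] in
theorem split (B : Set (Fin d → ℝ)) (hB : MeasurableSet B) (φ : (Fin d → ℝ) → ℝ) :
    ∫⁻ z : Fin (d + 1) ⊕ K → ℝ,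
      (Ioi (0 : ℝ)).indicator (fun t => ENNReal.ofReal (Real.exp (-t) * t ^ d)) (z (Sum.inl 0))
        * B.indicator (fun y => ENNReal.ofReal (φ y)) (yy d K z)
        * (Icc (0 : K → ℝ) 1).indicator 1 (fun j => z (Sum.inr j))
      ≤ (d.factorial : ENNReal) * ∫⁻ y in B, ENNReal.ofReal (φ y) := by
  set c : ℝ → ENNReal :=
    (Ioi (0 : ℝ)).indicator (fun t => ENNReal.ofReal (Real.exp (-t) * t ^ d)) with hc
  set f : (Fin d → ℝ) → ENNReal := B.indicator (fun y => ENNReal.ofReal (φ y)) with hf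
  have hcm : Measurable c := by
    refine Measurable.indicator ?_ measurableSet_Ioi
    fun_prop
  have hct : ∀ t, c t ≠ ⊤ := by
    intro t
    by_cases ht : t ∈ Ioi (0 : ℝ) <;> simp [hc, ht]
  have e1 := (volume_measurePreserving_sumPiEquivProdPi
    (fun _ : Fin (d + 1) ⊕ K => ℝ)).lintegral_comp_emb (MeasurableEquiv.measurableEmbedding _)
    (fun q : (Fin (d + 1) → ℝ) × (K → ℝ) => c (q.1 0) * f (fun a => q.1 a.succ)
      * (Icc (0 : K → ℝ) 1).indicator 1 q.2)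
  have e2 := (volume_preserving_piFinSuccAbove (fun _ : Fin (d + 1) => ℝ) 0).lintegral_comp_emb
    (MeasurableEquiv.measurableEmbedding _) (fun q : ℝ × (Fin d → ℝ) => c q.1 * f q.2)
  refine (le_of_eq e1).trans ((lintegral_prod_le _).trans ?_)
  have e3 : ∀ w : Fin (d + 1) → ℝ, ∫⁻ s : K → ℝ, c (w 0) * f (fun a => w a.succ)
      * (Icc (0 : K → ℝ) 1).indicator 1 s = c (w 0) * f (fun a => w a.succ) := by
    intro w
    rw [lintegral_const_mul _ (measurable_one.indicator measurableSet_Icc),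
      lintegral_indicator_one measurableSet_Icc, Real.volume_Icc_pi]
    simp
  simp only [e3]
  refine (le_of_eq e2).trans ((lintegral_prod_le _).trans (le_of_eq ?_))
  have e4 : ∀ t : ℝ, ∫⁻ y : Fin d → ℝ, c t * f y = c t * ∫⁻ y in B, ENNReal.ofReal (φ y) := by
    intro t
    rw [lintegral_const_mul' _ _ (hct t), hf, lintegral_indicator hB]
  simp only [e4]
  rw [lintegral_mul_const _ hcm, hc, lintegral_indicator measurableSet_Ioi, gam]

theorem kac (B : Set (Fin d → ℝ)) (hB : MeasurableSet B)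
    (hd : ∀ y ∈ B, ∀ i, HasFDerivAt (g i) (G i y) y) (hs : ∀ y ∈ B, ∑ i, g i y = 1) :
    volume {u : Fin (d + 1) ⊕ K → ℝ | ∃ y ∈ B, ∃ τ : ℝ, 0 < τ ∧
      (∀ k, u (Sum.inl k) = Real.exp (-(τ * g (Sum.inl k) y))) ∧
      ∀ j, 0 ≤ u (Sum.inr j) ∧ u (Sum.inr j) ≤ Real.exp (-(τ * g (Sum.inr j) y))}
      ≤ (d.factorial : ENNReal) * ∫⁻ y in B, ENNReal.ofReal |(mm g G y).det| := by
  let S : Set (Fin (d + 1) ⊕ K → ℝ) := {z | yy d K z ∈ B} ∩ ({z | z (Sum.inl 0) ∈ Ioi (0 : ℝ)}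
    ∩ {z | (fun j => z (Sum.inr j)) ∈ Icc (0 : K → ℝ) 1})
  have hS : MeasurableSet S := by
    refine ((yy d K).continuous.measurable hB).inter (MeasurableSet.inter ?_ ?_)
    · exact (measurable_pi_apply _) measurableSet_Ioi
    · exact (measurable_pi_lambda _ fun j => measurable_pi_apply _) measurableSet_Icc
  have h1 := addHaar_image_le_lintegral_abs_det_fderiv volume hS (f := psi g) (f' := psd g G)
    (fun z hz => (has_psi z (hd _ hz.1)).hasFDerivWithinAt)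
  refine (measure_mono ?_).trans (h1.trans (le_trans ?_ (split (K := K) B hB _)))
  · rintro u ⟨y, hy, τ, hτ, h2, h3⟩
    let z : Fin (d + 1) ⊕ K → ℝ := Sum.elim (Fin.cons τ y)
      (fun j => u (Sum.inr j) / Real.exp (-(τ * g (Sum.inr j) y)))
    have hzy : yy d K z = y := by ext a; simp [yy, z]
    have hz0 : z (Sum.inl 0) = τ := by simp [z]
    refine ⟨z, ⟨by simpa [hzy] using hy, by simpa [hz0] using hτ, fun j => ?_, fun j => ?_⟩, ?_⟩
    · exact div_nonneg (h3 j).1 (Real.exp_pos _).le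
    · exact (div_le_one (Real.exp_pos _)).2 (h3 j).2
    · ext i
      rcases i with k | j
      · simp [psi, ee, hzy, hz0, h2]
      · simp only [psi, ee, hzy, hz0, Sum.elim_inr]
        exact div_mul_cancel₀ _ (Real.exp_pos _).ne'
  · rw [← lintegral_indicator hS]
    refine lintegral_mono fun z => ?_
    by_cases hz : z ∈ S
    · obtain ⟨h2, h3, h4⟩ := id hz
      have h2' : yy d K z ∈ B := h2
      have h3' : z (Sum.inl 0) ∈ Ioi (0 : ℝ) := h3
      have h4' : (fun j => z (Sum.inr j)) ∈ Icc (0 : K → ℝ) 1 := h4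
      have h5 : 0 < z (Sum.inl 0) := h3'
      simp only [indicator_of_mem hz, indicator_of_mem h2', indicator_of_mem h3',
        indicator_of_mem h4', Pi.one_apply, mul_one]
      rw [det_psd z (hs _ h2') h5, ENNReal.ofReal_mul (by positivity)]
    · simp [indicator_of_notMem hz]

end Pool.Agent.MP_12aee2_gt.H38
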