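import Mathlib

/-!
A form of the local lemma, for events that depend on few independent coordinates.
-/

open Set MeasureTheory ProbabilityTheory
open scoped ENNReal

namespace Pool.Agent.MP_12aee2_gt.H38

theorem lll {Ω ι : Type} [MeasurableSpace Ω] (μ : Measure Ω) [IsProbabilityMeasure μ] [Fintype ι]
    [DecidableEq ι] (A : ι → Set Ω) (hA : ∀ i, MeasurableSet (A i)) (adj : ι → ι → Prop)
    [DecidableRel adj] (hself : ∀ i, adj i i)
    (hind : ∀ i (S : Finset ι), (∀ k ∈ S, ¬ adj i k) →
      μ.real (A i ∩ ⋂ k ∈ S, (A k)ᶜ) ≤ μ.real (A i) * μ.real (⋂ k ∈ S, (A k)ᶜ))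
    (hsum : ∀ i, ∑ k with adj i k, μ.real (A k) ≤ 1 / 4) : 0 < μ.real (⋂ k, (A k)ᶜ) := by
  let C : Finset ι → Set Ω := fun S => ⋂ k ∈ S, (A k)ᶜ
  have h1 : ∀ (m : ℕ) (S : Finset ι), S.card = m → ∀ i,
      μ.real (A i ∩ C S) ≤ 2 * μ.real (A i) * μ.real (C S) := by
    intro m
    induction m using Nat.strong_induction_on with
    | _ m ih =>
      intro S hS i
      let S1 := S.filter (adj i)
      let S2 := S.filter (fun k => ¬ adj i k)
      have hsub : C S ⊆ C S2 := biInter_subset_biInter_left (Finset.filter_subset _ _)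
      have h2 : μ.real (A i ∩ C S) ≤ μ.real (A i) * μ.real (C S2) :=
        (measureReal_mono (inter_subset_inter_right _ hsub)).trans
          (hind i S2 fun k hk => (Finset.mem_filter.1 hk).2)
      have h3 : μ.real (C S2) ≤ μ.real (C S) + ∑ k ∈ S1, μ.real (A k ∩ C S2) := by
        have : C S2 ⊆ C S ∪ ⋃ k ∈ S1, A k ∩ C S2 := by
          intro x hx
          by_cases hh : x ∈ C S
          · exact Or.inl hh
          · simp only [C, mem_iInter, mem_compl_iff, not_forall, not_not] at hh
            obtain ⟨k, hk, hxk⟩ := hh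
            refine Or.inr (mem_iUnion₂.2 ⟨k, Finset.mem_filter.2 ⟨hk, ?_⟩, hxk, hx⟩)
            by_contra hn
            exact mem_iInter₂.1 hx k (Finset.mem_filter.2 ⟨hk, hn⟩) hxk
        refine (measureReal_mono this).trans ((measureReal_union_le _ _).trans ?_)
        exact add_le_add le_rfl (measureReal_biUnion_finset_le _ _)
      have h4 : ∑ k ∈ S1, μ.real (A k ∩ C S2) ≤ ∑ k ∈ S1, 2 * μ.real (A k) * μ.real (C S2) := by
        refine Finset.sum_le_sum fun k hk => ih S2.card ?_ S2 rfl k
        rw [← hS]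
        refine Finset.card_lt_card (Finset.filter_ssubset.2 ⟨k, (Finset.mem_filter.1 hk).1, ?_⟩)
        exact not_not.2 (Finset.mem_filter.1 hk).2
      have h5 : ∑ k ∈ S1, μ.real (A k) ≤ 1 / 4 := by
        refine le_trans (Finset.sum_le_sum_of_subset_of_nonneg ?_ fun _ _ _ => measureReal_nonneg)
          (hsum i)
        exact Finset.filter_subset_filter _ (Finset.subset_univ _)
      rw [← Finset.sum_mul, ← Finset.mul_sum] at h4
      have h6 : 0 ≤ μ.real (C S2) := measureReal_nonneg
      have h7 : 0 ≤ μ.real (A i) := measureReal_nonneg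
      have h8 : μ.real (C S2) ≤ 2 * μ.real (C S) := by nlinarith
      nlinarith
  have h9 : ∀ S : Finset ι, 0 < μ.real (C S) := by
    intro S
    induction S using Finset.induction_on with
    | empty => simp [C]
    | insert i S hi ih =>
      have e : C (insert i S) = C S \ A i := by
        ext x
        simp [C, and_comm]
      have h2 := measureReal_inter_add_sdiff (μ := μ) (s := C S) (hA i)
      have h3 := h1 _ S rfl i
      have h4 : μ.real (A i) ≤ 1 / 4 :=
        le_trans (Finset.single_le_sum (f := fun k => μ.real (A k))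
          (fun _ _ => measureReal_nonneg) (by simp [hself i])) (hsum i)
      rw [inter_comm] at h2
      rw [e]
      nlinarith
  simpa [C] using h9 Finset.univ

theorem avoid {κ ι : Type} [Fintype κ] [DecidableEq κ] [Fintype ι] (T : ι → Finset κ)
    (hT : ∀ i, (T i).Nonempty) (E : ∀ i, Set (T i → ℝ))
    (hsum : ∀ i, ∑ k with ¬ Disjoint (T i) (T k), volume (E k) ≤ 1 / 4) :
    ∃ u : κ → ℝ, (∀ j, 0 < u j ∧ u j < 1) ∧ ∀ i, (fun j : T i => u j) ∉ E i := by
  classical
  let ν : Measure ℝ := volume.restrict (Ioo 0 1)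
  have hν : IsProbabilityMeasure ν := ⟨by simp [ν]⟩
  let μ : Measure (κ → ℝ) := Measure.pi fun _ => ν
  let F : ∀ i, Set (T i → ℝ) := fun i => toMeasurable volume (E i)
  have hF : ∀ i, MeasurableSet (F i) := fun i => measurableSet_toMeasurable _ _
  let A : ι → Set (κ → ℝ) := fun i => (fun u (j : T i) => u j) ⁻¹' F i
  have hres : ∀ s : Finset κ, Measurable fun (u : κ → ℝ) (j : s) => u j := fun s =>
    measurable_pi_lambda _ fun j => measurable_pi_apply _
  have hA : ∀ i, MeasurableSet (A i) := fun i => hres _ (hF i)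
  have hind : iIndepFun (fun j (u : κ → ℝ) => u j) μ :=
    iIndepFun_pi (μ := fun _ : κ => ν) (X := fun _ => id) fun _ => aemeasurable_id
  have hμA : ∀ i, μ (A i) ≤ volume (E i) := by
    intro i
    have h1 := measurePreserving_fst.comp
      (measurePreserving_piEquivPiSubtypeProd (fun _ : κ => ν) (· ∈ T i))
    have h2 := h1.measure_preimage (hF i).nullMeasurableSet
    have h3 : μ (A i) = Measure.pi (fun _ : T i => ν) (F i) := by
      refine h2.trans ?_
      rw [Subsingleton.elim (Subtype.fintype fun x => x ∈ T i) (Finset.Subtype.fintype (T i))]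
    refine (le_of_eq h3).trans ?_
    rw [← measure_toMeasurable (E i), volume_pi, ← Measure.restrict_pi_pi]
    exact Measure.restrict_apply_le _ _
  have h0 := lll μ A hA (fun i k => ¬ Disjoint (T i) (T k))
    (fun i h => (hT i).ne_empty (disjoint_self.1 h)) (fun i S hS => by
      have h1 := hind.indepFun_finset (T i) (T i)ᶜ disjoint_compl_right
        fun j => measurable_pi_apply j
      have hsub : ∀ k ∈ S, ∀ j ∈ T k, j ∈ (T i)ᶜ := fun k hk j hj =>
        Finset.mem_compl.2 fun h => Finset.disjoint_left.1 (not_not.1 (hS k hk)) h hj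
      let D : Set (((T i)ᶜ : Finset κ) → ℝ) := ⋂ k : S,
        ((fun v (j : T k) => v ⟨j, hsub k k.2 j j.2⟩) ⁻¹' F k)ᶜ
      have hD : MeasurableSet D := MeasurableSet.iInter fun k =>
        ((measurable_pi_lambda _ fun j => measurable_pi_apply _) (hF k)).compl
      have e : (⋂ k ∈ S, (A k)ᶜ) = (fun (u : κ → ℝ) (j : ((T i)ᶜ : Finset κ)) => u j) ⁻¹' D := by
        ext u
        simp [D, A]
      have h2 := h1.measure_inter_preimage_eq_mul (F i) D (hF i) hD
      rw [e]
      simp only [measureReal_def]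
      rw [← ENNReal.toReal_mul]
      exact le_of_eq (congrArg ENNReal.toReal h2)) (fun i => by
      have h1 : ∑ k with ¬ Disjoint (T i) (T k), μ (A k) ≤ 1 / 4 :=
        (Finset.sum_le_sum fun k _ => hμA k).trans (hsum i)
      have h2 := ENNReal.toReal_mono (by simp) h1
      rw [ENNReal.toReal_sum fun k _ => measure_ne_top _ _] at h2
      simpa [measureReal_def] using h2)
  have h1 : μ (⋂ k, (A k)ᶜ) ≠ 0 := fun h => by simp [measureReal_def, h] at h0
  have h2 : ∀ᵐ u ∂μ, u ∈ Set.pi univ fun _ : κ => Ioo (0 : ℝ) 1 := by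
    simp only [μ, ν]
    rw [← Measure.restrict_pi_pi]
    exact ae_restrict_mem (MeasurableSet.univ_pi fun _ => measurableSet_Ioo)
  obtain ⟨u, hu1, hu2⟩ := Measure.exists_mem_of_measure_ne_zero_of_ae h1 (ae_restrict_of_ae h2)
  exact ⟨u, fun j => hu2 j (mem_univ _), fun i h =>
    mem_iInter.1 hu1 i (subset_toMeasurable _ _ h)⟩

end Pool.Agent.MP_12aee2_gt.H38
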