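import Mathlib
import Pool.Agent.MP_12aee2_gt.h38.Defs

/-!
Every choice of clocks produces a tie of `k + 1` indices.
-/

open Set

namespace Pool.Agent.MP_12aee2_gt.H38

theorem tie {X : Type} [TopologicalSpace X] {N k : ℕ} (U : Fin N → Set X)
    (hU : Overlaps (k + 1) U) (f : Fin N → X → ℝ) (hc : ∀ i, Continuous (f i))
    (h0 : ∀ i x, 0 ≤ f i x) (hs : ∀ x, ∑ i, f i x = 1) (hsub : ∀ i x, 0 < f i x → x ∈ U i)
    (t : Fin N → ℝ) (ht : ∀ i, 0 < t i) :
    ∃ x, ∃ I : Fin (k + 1) → Fin N, Function.Injective I ∧ ∃ τ : ℝ, 0 < τ ∧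
      (∀ j, t (I j) = τ * f (I j) x) ∧ ∀ i, τ * f i x ≤ t i := by
  by_contra hno
  let h : Fin N → X → ℝ := fun i x => f i x / t i
  let ψ : Fin N → X → ℝ := fun i x => ∑ j, max (h j x - h i x) 0
  have hψc : ∀ i, Continuous (ψ i) := fun i =>
    continuous_finsetSum _ fun j _ =>
      (((hc j).div_const _).sub ((hc i).div_const _)).max continuous_const
  have hψ0 : ∀ i x, 0 ≤ ψ i x := fun i x => Finset.sum_nonneg fun j _ => le_max_right _ _
  have hψz : ∀ i x, ψ i x = 0 → ∀ j, h j x ≤ h i x := by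
    intro i x hz j
    have := (Finset.sum_eq_zero_iff_of_nonneg (fun j _ => le_max_right _ _)).1 hz j
      (Finset.mem_univ _)
    have h2 := le_max_left (h j x - h i x) 0
    linarith
  have hpos : ∀ x, ∃ j, 0 < f j x := by
    intro x
    by_contra hh
    push Not at hh
    have := Finset.sum_nonpos (s := Finset.univ) fun j _ => hh j
    rw [hs x] at this
    linarith
  have hmaxpos : ∀ i x, (∀ j, h j x ≤ h i x) → 0 < h i x := by
    intro i x hm
    obtain ⟨j, hj⟩ := hpos x
    exact lt_of_lt_of_le (div_pos hj (ht j)) (hm j)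
  have hφ : ∀ x (I : Fin (k + 1) → Fin N), Function.Injective I → 0 < ∑ j, ψ (I j) x := by
    intro x I hI
    refine lt_of_le_of_ne (Finset.sum_nonneg fun j _ => hψ0 _ _) fun hz => hno ?_
    have hz' : ∀ j, ψ (I j) x = 0 := fun j =>
      (Finset.sum_eq_zero_iff_of_nonneg (fun j _ => hψ0 _ _)).1 hz.symm j (Finset.mem_univ _)
    have hm := hψz _ x (hz' 0)
    have hμ := hmaxpos _ x hm
    refine ⟨x, I, hI, (h (I 0) x)⁻¹, inv_pos.2 hμ, fun j => ?_, fun i => ?_⟩
    · have e : h (I 0) x = f (I j) x / t (I j) := le_antisymm (hψz _ x (hz' j) _) (hm _)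
      have hμ' := hμ
      rw [e] at hμ' ⊢
      have hf : 0 < f (I j) x := (div_pos_iff_of_pos_right (ht _)).1 hμ'
      have := ht (I j)
      field_simp
    · have e : f i x / t i ≤ h (I 0) x := hm i
      rw [div_le_iff₀ (ht i)] at e
      rw [inv_mul_le_iff₀ hμ]
      exact e
  let V : Fin N → Set X := fun i => {x | 0 < f i x} ∩
    ⋂ I : {I : Fin (k + 1) → Fin N // Function.Injective I},
      {x | (k + 1 : ℝ) * ψ i x < ∑ j, ψ (I.1 j) x}
  obtain ⟨x, hx⟩ := hU V (fun i => ⟨(isOpen_lt continuous_const (hc i)).inter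
      (isOpen_iInter_of_finite fun I => isOpen_lt (continuous_const.mul (hψc i))
        (continuous_finsetSum _ fun j _ => hψc _)), fun x hx => hsub i x hx.1⟩) (by
    refine eq_univ_of_forall fun x => ?_
    obtain ⟨j0, -⟩ := hpos x
    have : Nonempty (Fin N) := ⟨j0⟩
    obtain ⟨i, hi⟩ := Finite.exists_max fun i => h i x
    refine mem_iUnion.2 ⟨i, (div_pos_iff_of_pos_right (ht _)).1 (hmaxpos i x hi), ?_⟩
    refine mem_iInter.2 fun I => ?_
    have : ψ i x = 0 := Finset.sum_eq_zero fun j _ => max_eq_right (sub_nonpos.2 (hi j))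
    show (k + 1 : ℝ) * ψ i x < _
    rw [this, mul_zero]
    exact hφ x I.1 I.2)
  classical
  rw [Set.ncard_eq_toFinset_card'] at hx
  obtain ⟨s, hs1, hs2⟩ := Finset.exists_subset_card_eq hx
  let I : Fin (k + 1) → Fin N := s.orderEmbOfFin hs2
  have hI : Function.Injective I := (s.orderEmbOfFin hs2).injective
  have hmem : ∀ j, (k + 1 : ℝ) * ψ (I j) x < ∑ j, ψ (I j) x := by
    intro j
    have : x ∈ V (I j) := by simpa using hs1 (s.orderEmbOfFin_mem hs2 j)
    exact mem_iInter.1 this.2 ⟨I, hI⟩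
  have := Finset.sum_lt_sum_of_nonempty (s := Finset.univ) Finset.univ_nonempty
    fun j _ => hmem j
  rw [← Finset.mul_sum] at this
  simp at this

end Pool.Agent.MP_12aee2_gt.H38
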