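import Mathlib
import Pool.Agent.MP_12aee2_gt.h38.Kac
import Pool.Agent.MP_12aee2_gt.h38.Top
import Pool.Agent.MP_12aee2_gt.h38.Chart
import Pool.Agent.MP_12aee2_gt.h38.LLL

/-!
The lower bound for the Poisson bracket invariant of covers of full multiplicity.
-/

open Matrix Set MeasureTheory
open scoped Manifold ContDiff ENNReal

namespace Pool.Agent.MP_12aee2_gt.H38

variable {d N : ℕ} {M : ClosedMfd d} {σ : TwoForm M}

/-- the minor of values and gradients -/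
noncomputable def minor {κ : Type} (f : κ → M.carrier → ℝ) (p : M.carrier) (I : Fin (d + 1) → κ)
    (y : EuclideanSpace ℝ (Fin d)) : ℝ :=
  ((ext1 (fun i => f i ((chartOf M p).symm y)) (rows f p y)).submatrix I id).det

/-- clocks with a tie in a piece of a chart -/
def bad {κ : Type} (f : κ → M.carrier → ℝ) (p : M.carrier) (B : Set (EuclideanSpace ℝ (Fin d)))
    (I : Fin (d + 1) → κ) : Set (κ → ℝ) :=
  {u | Function.Injective I ∧ ∃ y ∈ B, ∃ τ : ℝ, 0 < τ ∧
    (∀ k, u (I k) = Real.exp (-(τ * f (I k) ((chartOf M p).symm y)))) ∧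
    ∀ i, 0 ≤ u i ∧ u i ≤ Real.exp (-(τ * f i ((chartOf M p).symm y)))}

theorem vol_bad {κ : Type} [Fintype κ] {f : κ → M.carrier → ℝ}
    (hf : ∀ i, ContMDiff (𝓡 d) 𝓘(ℝ, ℝ) ∞ (f i))
    (p : M.carrier) (B : Set (EuclideanSpace ℝ (Fin d)))
    (hs : ∀ y ∈ B, ∑ i, f i ((chartOf M p).symm y) = 1)
    (hB : MeasurableSet B) (hBt : B ⊆ (chartOf M p).target) (I : Fin (d + 1) → κ) :
    volume (bad f p B I) ≤ (d.factorial : ℝ≥0∞) * ∫⁻ y in B, ENNReal.ofReal |minor f p I y| := by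
  classical
  by_cases hI : Function.Injective I
  swap
  · have : bad f p B I = ∅ := eq_empty_of_forall_notMem fun u hu => hI hu.1
    simp [this]
  let K := {j : κ // j ∉ Set.range I}
  let ε : Fin (d + 1) ⊕ K ≃ κ :=
    (Equiv.sumCongr (Equiv.ofInjective I hI) (Equiv.refl K)).trans
      (Equiv.sumCompl (· ∈ Set.range I))
  have hε : ∀ k, ε (Sum.inl k) = I k := fun k => rfl
  let T : (Fin d → ℝ) ≃L[ℝ] EuclideanSpace ℝ (Fin d) :=
    (PiLp.continuousLinearEquiv 2 ℝ (fun _ : Fin d => ℝ)).symm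
  have hT : ∀ v, T v = WithLp.toLp 2 v := fun v => rfl
  let g : Fin (d + 1) ⊕ K → (Fin d → ℝ) → ℝ := fun i v => (f (ε i) ∘ (chartOf M p).symm) (T v)
  let G : Fin (d + 1) ⊕ K → (Fin d → ℝ) → (Fin d → ℝ) →L[ℝ] ℝ := fun i v =>
    (fderiv ℝ (f (ε i) ∘ (chartOf M p).symm) (T v)).comp (T : (Fin d → ℝ) →L[ℝ] _)
  have h1 := kac (g := g) (G := G) (T ⁻¹' B) (T.continuous.measurable hB)
    (fun v hv i => (diff_chart (hf _) (hBt hv)).hasFDerivAt.comp v T.hasFDerivAt)
    (fun v hv => by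
      rw [← hs (T v) hv]
      exact Fintype.sum_equiv ε _ _ fun i => rfl)
  have h2 : ∀ v, (mm g G v).det = minor f p I (WithLp.toLp 2 v) := by
    intro v
    rw [mm, minor]
    congr 1
  have h3 := (PiLp.volume_preserving_toLp (Fin d)).setLIntegral_comp_preimage_emb
    (MeasurableEquiv.toLp 2 (Fin d → ℝ)).measurableEmbedding
    (fun y => ENNReal.ofReal |minor f p I y|) B
  simp only [h2] at h1
  have h4 := volume_preserving_arrowCongr' ε.symm (MeasurableEquiv.refl ℝ)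
    (MeasurePreserving.id volume)
  rw [← h4.measure_preimage_equiv] at h1
  refine (measure_mono ?_).trans (h1.trans (le_of_eq ?_))
  · rintro u ⟨-, y, hy, τ, hτ, h5, h6⟩
    exact ⟨y.ofLp, hy, τ, hτ, fun k => h5 k, fun j => h6 _⟩
  · rw [← h3]
    rfl

theorem sum_lint_le {α ι : Type} [MeasurableSpace α] (μ : Measure α) (s : Finset ι)
    (φ : ι → α → ℝ≥0∞) : ∑ i ∈ s, ∫⁻ a, φ i a ∂μ ≤ ∫⁻ a, ∑ i ∈ s, φ i a ∂μ := by
  classical
  induction s using Finset.induction_on with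
  | empty => simp
  | insert i s hi ih =>
    simp only [Finset.sum_insert hi]
    exact (add_le_add le_rfl ih).trans (le_lintegral_add _ _)

theorem sum_minor {n : ℕ} {M : ClosedMfd (2 * n)} {σ : TwoForm M} (hσ : IsSymplectic σ)
    {f : Fin N → M.carrier → ℝ} (hf : ∀ i, ContMDiff (𝓡 (2 * n)) 𝓘(ℝ, ℝ) ∞ (f i))
    (h0 : ∀ i x, 0 ≤ f i x) (hs : ∀ x, ∑ i, f i x = 1) {b : ℝ} (hb : 0 ≤ b)
    (hP : pbFun σ f ≤ ENNReal.ofReal b) (p : M.carrier) (y : EuclideanSpace ℝ (Fin (2 * n)))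
    (hy : y ∈ (chartOf M p).target) :
    ∑ I, |minor f p I y| ≤ ((2 * n + 1).factorial : ℝ) ^ 2 * b ^ n * √|(gram σ p y).det| := by
  refine point _ _ (gram σ p y) b hb (fun i => h0 i _) (hs _) fun A hA => ?_
  have hu : IsUnit (gram σ p y).det := isUnit_iff_ne_zero.2 (det_gram hσ hy)
  refine ⟨A * rows f p y * (gram σ p y)⁻¹, by
    rw [Matrix.mul_assoc _ _ (gram σ p y), Matrix.nonsing_inv_mul _ hu, Matrix.mul_one],
    fun k l => ?_⟩
  have hm : ∀ k, A k ∈ Icc (-1 : Fin N → ℝ) 1 := fun k =>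
    ⟨fun i => (abs_le.1 (hA k i)).1, fun i => (abs_le.1 (hA k i)).2⟩
  have h1 : ‖poisson σ (fun x => ∑ i, A k i * f i x) (fun x => ∑ i, A l i * f i x)
      ((chartOf M p).symm y)‖ₑ ≤ ENNReal.ofReal b := by
    refine le_trans ?_ hP
    exact le_iSup₂_of_le (A k) (hm k) (le_iSup₂_of_le (A l) (hm l) (le_iSup_of_le _ le_rfl))
  rw [poisson_comb hσ hf hy, ← ofReal_norm, ENNReal.ofReal_le_ofReal_iff hb,
    Real.norm_eq_abs] at h1
  exact h1

/-- the clocks of the indices in `T` that tie at a point lying exactly in the sets of `T` -/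
def ev {X : Type} (d : ℕ) (U : Fin N → Set X) (f : Fin N → X → ℝ) (T : Finset (Fin N)) :
    Set (T → ℝ) :=
  {v | ∃ x, (∀ j, j ∈ T ↔ x ∈ U j) ∧ ∃ I : Fin (d + 1) → T, Function.Injective I ∧
    ∃ τ : ℝ, 0 < τ ∧ (∀ k, v (I k) = Real.exp (-(τ * f (I k) x))) ∧
      ∀ i, 0 ≤ v i ∧ v i ≤ Real.exp (-(τ * f i x))}

/-- the index sets realised by points -/
abbrev Real' {X : Type} (U : Fin N → Set X) : Type :=
  {T : Finset (Fin N) // ∃ x, ∀ j, j ∈ T ↔ x ∈ U j}

open Classical in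
theorem heavy {X : Type} [TopologicalSpace X] {U : Fin N → Set X} (hU : Overlaps (d + 1) U)
    {f : Fin N → X → ℝ} (hc : ∀ i, Continuous (f i)) (h0 : ∀ i x, 0 ≤ f i x)
    (hs : ∀ x, ∑ i, f i x = 1) (hsub : ∀ i x, 0 < f i x → x ∈ U i) :
    ∃ T : Real' U, 1 / 4 < ∑ k : Real' U with ¬ Disjoint T.1 k.1, volume (ev d U f k.1) := by
  by_contra hno
  push Not at hno
  obtain ⟨u, hu, hu2⟩ := avoid (fun T : Real' U => T.1) (fun T => by
    obtain ⟨x, hx⟩ := T.2
    by_contra hh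
    have : ∀ i, f i x ≤ 0 := fun i => not_lt.1 fun h => hh ⟨i, (hx i).2 (hsub i x h)⟩
    have h2 := Finset.sum_nonpos (s := Finset.univ) fun j _ => this j
    rw [hs x] at h2
    linarith) (fun T => ev d U f T.1) hno
  have ht : ∀ i, 0 < -Real.log (u i) := fun i => neg_pos.2 (Real.log_neg (hu i).1 (hu i).2)
  obtain ⟨x, I, hI, τ, hτ, h2, h3⟩ := tie U hU f hc h0 hs hsub (fun i => -Real.log (u i)) ht
  have hT : ∀ j, j ∈ Finset.univ.filter (fun j => x ∈ U j) ↔ x ∈ U j := fun j => by simp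
  have hI2 : ∀ k, I k ∈ Finset.univ.filter (fun j => x ∈ U j) := fun k =>
    (hT _).2 (hsub _ _ (pos_of_mul_pos_left ((mul_comm _ _).trans (h2 k).symm ▸ ht (I k)) hτ.le))
  refine hu2 ⟨_, x, hT⟩ ⟨x, hT, fun k => ⟨I k, hI2 k⟩,
    fun a b h => hI (congrArg Subtype.val h), τ, hτ, fun k => ?_, fun i => ⟨(hu i).1.le, ?_⟩⟩
  · show u (I k) = Real.exp (-(τ * f (I k) x))
    rw [← h2 k, neg_neg, Real.exp_log (hu _).1]
  · show u i ≤ Real.exp (-(τ * f i x))
    rw [← Real.exp_log (hu i).1]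
    exact Real.exp_le_exp.2 (by linarith [h3 i])

open Classical in
theorem core {n : ℕ} {M : ClosedMfd (2 * n)} {σ : TwoForm M} (hσ : IsSymplectic σ)
    {U : Fin N → Set M.carrier} (ho : ∀ i, IsOpen (U i))
    {f : Fin N → M.carrier → ℝ} (hf : ∀ i, ContMDiff (𝓡 (2 * n)) 𝓘(ℝ, ℝ) ∞ (f i))
    (h0 : ∀ i x, 0 ≤ f i x) (hs : ∀ x, ∑ i, f i x = 1) (hsub : ∀ i x, 0 < f i x → x ∈ U i)
    {b : ℝ} (hb : 0 ≤ b) (hP : pbFun σ f ≤ ENNReal.ofReal b)
    (T : Real' U) (x0 : M.carrier) (hx0 : ∀ j, j ∈ T.1 ↔ x0 ∈ U j)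
    (s : Finset M.carrier) (B : M.carrier → Set (EuclideanSpace ℝ (Fin (2 * n))))
    (hB : ∀ p, MeasurableSet (B p) ∧ B p ⊆ (chartOf M p).target)
    (hcov : ∀ x ∈ starAt U x0, ∃ p ∈ s, x ∈ (chartOf M p).symm '' B p) :
    ∑ k : Real' U with ¬ Disjoint T.1 k.1, volume (ev (2 * n) U f k.1)
      ≤ ENNReal.ofReal (((2 * n).factorial : ℝ) * ((2 * n + 1).factorial : ℝ) ^ 2 * b ^ n) *
      ∑ p ∈ s, ∫⁻ y in B p, ENNReal.ofReal √|(gram σ p y).det| := by
  let P : M.carrier → Real' U → Set (EuclideanSpace ℝ (Fin (2 * n))) := fun p k =>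
    B p ∩ ⋂ j, {y | j ∈ k.1 ↔ y ∈ (chartOf M p).target ∩ (chartOf M p).symm ⁻¹' U j}
  have hPm : ∀ p k, MeasurableSet (P p k) := by
    intro p k
    refine (hB p).1.inter (MeasurableSet.iInter fun j => ?_)
    have h1 := ((chartOf M p).isOpen_inter_preimage_symm (ho j)).measurableSet
    by_cases hj : j ∈ k.1
    · simpa only [hj, true_iff, ofPred_mem_eq] using h1
    · simp only [hj, false_iff]
      exact h1.compl
  have hPi : ∀ p k y, y ∈ P p k ↔ y ∈ B p ∧ ∀ j, j ∈ k.1 ↔ (chartOf M p).symm y ∈ U j := by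
    intro p k y
    simp only [P, mem_inter_iff, mem_iInter, mem_ofPred_eq, mem_preimage]
    refine and_congr_right fun hy => forall_congr' fun j => ?_
    simp [(hB p).2 hy]
  let φ : M.carrier → EuclideanSpace ℝ (Fin (2 * n)) → ℝ≥0∞ := fun p y =>
    ENNReal.ofReal (((2 * n + 1).factorial : ℝ) ^ 2 * b ^ n) * ENNReal.ofReal √|(gram σ p y).det|
  have h1 : ∀ k : Real' U, ¬ Disjoint T.1 k.1 → volume (ev (2 * n) U f k.1)
      ≤ ∑ p ∈ s, ((2 * n).factorial : ℝ≥0∞) * ∫⁻ y in P p k, φ p y := by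
    intro k hk
    obtain ⟨j, hj1, hj2⟩ := Finset.not_disjoint_iff.1 hk
    have h2 : ev (2 * n) U f k.1 ⊆ ⋃ p ∈ s,
        ⋃ I ∈ (Finset.univ : Finset (Fin (2 * n + 1) → k.1)),
          bad (fun i : k.1 => f i) p (P p k) I := by
      rintro v ⟨x, hx, I, hI, τ, hτ, h3, h4⟩
      obtain ⟨p, hp, y, hy, rfl⟩ := hcov x ⟨j, (hx0 j).1 hj1, (hx j).1 hj2⟩
      exact mem_iUnion₂.2 ⟨p, hp, mem_iUnion₂.2 ⟨I, Finset.mem_univ _, hI, y,
        (hPi p k y).2 ⟨hy, hx⟩, τ, hτ, h3, h4⟩⟩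
    refine (measure_mono h2).trans ((measure_biUnion_finset_le _ _).trans ?_)
    refine Finset.sum_le_sum fun p _ => (measure_biUnion_finset_le _ _).trans ?_
    have h5 : ∀ y ∈ P p k, ∑ i : k.1, f i ((chartOf M p).symm y) = 1 := by
      intro y hy
      rw [← hs ((chartOf M p).symm y), Finset.sum_coe_sort k.1 fun i => f i _]
      refine Finset.sum_subset (Finset.subset_univ _) fun i _ hi => ?_
      refine le_antisymm (not_lt.1 fun h => hi ?_) (h0 _ _)
      exact (((hPi p k y).1 hy).2 i).2 (hsub _ _ h)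
    have h6 : P p k ⊆ (chartOf M p).target := inter_subset_left.trans (hB p).2
    refine (Finset.sum_le_sum fun I _ =>
      vol_bad (fun i : k.1 => hf i) p (P p k) h5 (hPm p k) h6 I).trans ?_
    rw [← Finset.mul_sum]
    refine mul_le_mul' le_rfl ((sum_lint_le _ _ _).trans ?_)
    refine setLIntegral_mono' (hPm p k) fun y hy => ?_
    simp only [φ]
    rw [← ENNReal.ofReal_sum_of_nonneg fun I _ => abs_nonneg _,
      ← ENNReal.ofReal_mul (by positivity)]
    refine ENNReal.ofReal_le_ofReal (le_trans ?_ (sum_minor hσ hf h0 hs hb hP p y (h6 hy)))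
    have e : ∀ I : Fin (2 * n + 1) → k.1, minor (fun i : k.1 => f i) p I y
        = minor f p (Subtype.val ∘ I) y := fun I => rfl
    simp only [e]
    rw [← Finset.sum_image (g := fun I : Fin (2 * n + 1) → k.1 => Subtype.val ∘ I)
      (f := fun I => |minor f p I y|)
      fun a _ c _ h => Subtype.val_injective.comp_left h]
    exact Finset.sum_le_univ_sum_of_nonneg fun I => abs_nonneg _
  refine (Finset.sum_le_sum fun k hk => h1 k (Finset.mem_filter.1 hk).2).trans ?_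
  rw [Finset.sum_comm, Finset.mul_sum]
  refine Finset.sum_le_sum fun p _ => ?_
  rw [← Finset.mul_sum, mul_assoc, ENNReal.ofReal_mul (by positivity), ENNReal.ofReal_natCast,
    mul_assoc, ← lintegral_const_mul' _ _ ENNReal.ofReal_ne_top,
    ← lintegral_biUnion_finset ?_ fun k _ => hPm p k]
  · exact mul_le_mul' le_rfl (lintegral_mono_set (iUnion₂_subset fun k _ => inter_subset_left))
  · intro k _ l _ hkl
    refine Set.disjoint_left.2 fun y h2 h3 => hkl (Subtype.ext (Finset.ext fun j => ?_))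
    exact (((hPi p k y).1 h2).2 j).trans (((hPi p l y).1 h3).2 j).symm

/-- finitely many compact pieces of charts cover the manifold -/
theorem pieces (M : ClosedMfd d) : ∃ (s : Finset M.carrier)
    (B : M.carrier → Set (EuclideanSpace ℝ (Fin d))),
    (∀ p, IsCompact (B p) ∧ B p ⊆ (chartOf M p).target) ∧
      ∀ x, ∃ p ∈ s, x ∈ (chartOf M p).symm '' B p := by
  have h1 : ∀ p : M.carrier, ∃ B : Set (EuclideanSpace ℝ (Fin d)),
      (IsCompact B ∧ B ⊆ (chartOf M p).target) ∧ (chartOf M p).symm '' B ∈ nhds p := by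
    intro p
    have hp := mem_chart_source (EuclideanSpace ℝ (Fin d)) p
    obtain ⟨B, hB1, hB2, hB3⟩ := local_compact_nhds
      ((chartOf M p).open_target.mem_nhds ((chartOf M p).map_source hp))
    refine ⟨B, ⟨hB3, hB2⟩, ?_⟩
    have := (chartOf M p).symm.image_mem_nhds ((chartOf M p).map_source hp) hB1
    rwa [(chartOf M p).left_inv hp] at this
  choose B hB hn using h1
  obtain ⟨s, -, hs⟩ := isCompact_univ.elim_nhds_subcover _ fun p _ => hn p
  refine ⟨s, B, hB, fun x => ?_⟩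
  simpa using hs (mem_univ x)

theorem cont_gram (hσ : IsSymplectic σ) (p : M.carrier) :
    ContinuousOn (gram σ p) (chartOf M p).target := by
  refine continuousOn_pi.2 fun a => continuousOn_pi.2 fun b => ?_
  exact (continuous_eval_const _).comp_continuousOn (hσ.smooth p).continuousOn

theorem vol_ne_top (hσ : IsSymplectic σ) (W : Set M.carrier) : vol σ W ≠ ⊤ := by
  obtain ⟨s, B, hB, hc⟩ := pieces M
  refine ne_top_of_le_ne_top ?_ (iInf₂_le_of_le s B
    (iInf₂_le_of_le (fun p => ⟨(hB p).1.measurableSet, (hB p).2⟩) (fun x _ => hc x) le_rfl))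
  refine ENNReal.sum_ne_top.2 fun p _ => ?_
  have h1 : ContinuousOn (fun y => √|(gram σ p y).det|) (B p) :=
    (Continuous.comp_continuousOn (g := fun A : Matrix (Fin d) (Fin d) ℝ => √|A.det|)
      (continuous_id.matrix_det.abs.sqrt) (cont_gram hσ p)).mono (hB p).2
  obtain ⟨C, hC⟩ := (hB p).1.bddAbove_image h1
  refine (setLIntegral_lt_top_of_le_nnreal (hB p).1.measure_ne_top ⟨C.toNNReal, fun y hy => ?_⟩).ne
  exact ENNReal.ofReal_le_ofReal (hC ⟨y, hy, rfl⟩)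

theorem pbFun_ne_top (hσ : IsSymplectic σ) {f : Fin N → M.carrier → ℝ}
    (hf : ∀ i, ContMDiff (𝓡 d) 𝓘(ℝ, ℝ) ∞ (f i)) : pbFun σ f ≠ ⊤ := by
  obtain ⟨s, B, hB, hc⟩ := pieces M
  have h1 : ∀ p, ∃ C : ℝ, ∀ a ∈ Icc (-1 : Fin N → ℝ) 1, ∀ b ∈ Icc (-1 : Fin N → ℝ) 1,
      ∀ y ∈ B p, ‖poisson σ (fun x => ∑ i, a i * f i x) (fun x => ∑ i, b i * f i x)
        ((chartOf M p).symm y)‖ ≤ C := by
    intro p
    have hr : ContinuousOn (rows f p) (chartOf M p).target := by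
      refine continuousOn_pi.2 fun i => continuousOn_pi.2 fun a => ?_
      exact (continuous_eval_const _).comp_continuousOn
        ((smooth_chart (hf i)).continuousOn_fderiv_of_isOpen (chartOf M p).open_target (by simp))
    have hi : ContinuousOn (fun y => (gram σ p y)⁻¹) (chartOf M p).target := by
      intro y hy
      have hu : IsUnit (gram σ p y).det := isUnit_iff_ne_zero.2 (det_gram hσ hy)
      have := continuousAt_matrix_inv (gram σ p y) (by
        rw [Ring.inverse_eq_inv']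
        exact continuousAt_inv₀ (det_gram hσ hy))
      exact this.comp_continuousWithinAt (cont_gram hσ p y hy)
    have hk : IsCompact (Icc (-1 : Fin N → ℝ) 1 ×ˢ Icc (-1 : Fin N → ℝ) 1 ×ˢ B p) :=
      isCompact_Icc.prod (isCompact_Icc.prod (hB p).1)
    have hF : Continuous fun q : ((Fin N → ℝ) × (Fin N → ℝ)) × Matrix (Fin N) (Fin d) ℝ ×
        Matrix (Fin d) (Fin d) ℝ × Matrix (Fin d) (Fin d) ℝ =>
        (((q.1.1 ᵥ* q.2.1) ᵥ* q.2.2.1) ᵥ* q.2.2.2) ⬝ᵥ ((q.1.2 ᵥ* q.2.1) ᵥ* q.2.2.1) := by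
      fun_prop
    have h3 : ContinuousOn (fun q : (Fin N → ℝ) × (Fin N → ℝ) × EuclideanSpace ℝ (Fin d) => q.2.2)
        (Icc (-1 : Fin N → ℝ) 1 ×ˢ Icc (-1 : Fin N → ℝ) 1 ×ˢ B p) := by fun_prop
    have h4 : MapsTo (fun q : (Fin N → ℝ) × (Fin N → ℝ) × EuclideanSpace ℝ (Fin d) => q.2.2)
        (Icc (-1 : Fin N → ℝ) 1 ×ˢ Icc (-1 : Fin N → ℝ) 1 ×ˢ B p) (chartOf M p).target :=
      fun q hq => (hB p).2 hq.2.2
    have h5 := hF.comp_continuousOn (ContinuousOn.prodMk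
      (f := fun q : (Fin N → ℝ) × (Fin N → ℝ) × EuclideanSpace ℝ (Fin d) => (q.1, q.2.1))
      (by fun_prop) ((hr.comp h3 h4).prodMk ((hi.comp h3 h4).prodMk
        ((cont_gram hσ p).comp h3 h4))))
    obtain ⟨C, hC⟩ := hk.exists_bound_of_continuousOn h5
    refine ⟨C, fun a ha b hb y hy => ?_⟩
    rw [poisson_comb hσ hf ((hB p).2 hy)]
    exact hC (a, b, y) ⟨ha, hb, hy⟩
  choose C hC using h1
  refine ne_top_of_le_ne_top (ENNReal.sum_ne_top.2 fun p (_ : p ∈ s) =>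
    ENNReal.ofReal_ne_top (r := C p)) ?_
  refine iSup₂_le fun a ha => iSup₂_le fun b hb => iSup_le fun x => ?_
  obtain ⟨p, hp, y, hy, rfl⟩ := hc x
  refine le_trans ?_ (Finset.single_le_sum (f := fun p => ENNReal.ofReal (C p))
    (fun _ _ => zero_le) hp)
  rw [← ofReal_norm]
  exact ENNReal.ofReal_le_ofReal (hC p a ha b hb y hy)

theorem main {n : ℕ} {M : ClosedMfd (2 * n)} {σ : TwoForm M} (hσ : IsSymplectic σ)
    {U : Fin N → Set M.carrier} (ho : ∀ i, IsOpen (U i)) (hc : ⋃ i, U i = univ)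
    (hU : Overlaps (2 * n + 1) U) :
    ∃ x, 1 / (4 * ((2 * n).factorial : ℝ) * ((2 * n + 1).factorial : ℝ) ^ 2)
      ≤ (pbCover σ U).toReal ^ n * (vol σ (starAt U x)).toReal := by
  classical
  have hsm : ∀ (F : SmoothPartitionOfUnity (Fin N) (𝓡 (2 * n)) M.carrier univ) i,
      ContMDiff (𝓡 (2 * n)) 𝓘(ℝ, ℝ) ∞ (F i) := fun F i => (F i).contMDiff
  obtain ⟨F0, hF0⟩ := SmoothPartitionOfUnity.exists_isSubordinate (𝓡 (2 * n)) isClosed_univ U ho
    hc.ge
  have hfin : pbCover σ U ≠ ⊤ :=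
    ne_top_of_le_ne_top (pbFun_ne_top hσ (hsm F0)) (iInf₂_le_of_le F0 hF0 le_rfl)
  rw [mul_assoc]
  set C : ℝ := ((2 * n).factorial : ℝ) * ((2 * n + 1).factorial : ℝ) ^ 2 with hC
  have hCp : 0 < C := by positivity
  let x0 : Real' U → M.carrier := fun T => T.2.choose
  have key : ∀ b, (pbCover σ U).toReal < b →
      ∃ T, 1 / (4 * C) ≤ b ^ n * (vol σ (starAt U (x0 T))).toReal := by
    intro b hb
    have hb0 : 0 < b := lt_of_le_of_lt ENNReal.toReal_nonneg hb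
    have h1 : pbCover σ U < ENNReal.ofReal b :=
      (ENNReal.lt_ofReal_iff_toReal_lt hfin).2 hb
    obtain ⟨F, h2⟩ := iInf_lt_iff.1 h1
    obtain ⟨hF, h3⟩ := iInf_lt_iff.1 h2
    have hs : ∀ x, ∑ i, F i x = 1 := fun x => by
      rw [← F.sum_eq_one (mem_univ x), finsum_eq_sum_of_fintype]
    have hsub : ∀ i x, 0 < F i x → x ∈ U i := fun i x hx => hF i (subset_tsupport _ hx.ne')
    obtain ⟨T, hT⟩ := heavy hU (fun i => (hsm F i).continuous) (fun i x => F.nonneg i x) hs hsub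
    have h4 : 1 / 4 ≤ ENNReal.ofReal (C * b ^ n) * vol σ (starAt U (x0 T)) := by
      have hne : ENNReal.ofReal (C * b ^ n) ≠ 0 := (ENNReal.ofReal_pos.2 (by positivity)).ne'
      simp only [vol, ENNReal.mul_iInf_of_ne hne ENNReal.ofReal_ne_top]
      refine le_iInf₂ fun s B => le_iInf₂ fun hB hcov => hT.le.trans ?_
      exact core hσ ho (hsm F) (fun i x => F.nonneg i x) hs hsub hb0.le h3.le T _
        T.2.choose_spec s B hB hcov
    have h5 := ENNReal.toReal_mono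
      (ENNReal.mul_ne_top ENNReal.ofReal_ne_top (vol_ne_top hσ _)) h4
    rw [ENNReal.toReal_mul, ENNReal.toReal_ofReal (by positivity)] at h5
    refine ⟨T, ?_⟩
    rw [div_le_iff₀ (by positivity)]
    norm_num at h5
    linarith
  by_contra hno
  push Not at hno
  have h6 : ∀ᶠ b in nhdsWithin (pbCover σ U).toReal (Ioi (pbCover σ U).toReal), ∀ T : Real' U,
      b ^ n * (vol σ (starAt U (x0 T))).toReal < 1 / (4 * C) := by
    refine Filter.eventually_all.2 fun T => ?_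
    have hcont : Continuous fun b : ℝ => b ^ n * (vol σ (starAt U (x0 T))).toReal := by fun_prop
    exact (hcont.continuousAt.eventually_lt_const (hno _)).filter_mono nhdsWithin_le_nhds
  obtain ⟨b, h7, h8⟩ := (h6.and eventually_mem_nhdsWithin).exists
  obtain ⟨T, hT⟩ := key b h8
  exact absurd (h7 T) (not_lt.2 hT)

end Pool.Agent.MP_12aee2_gt.H38
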