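import Mathlib
import Pool.Agent.MP_12aee2_gt.h38.Main

/-!
A lower bound for the volume of small balls of the distance given by a partition of unity.
-/

open Matrix Set MeasureTheory
open scoped Manifold ContDiff ENNReal

namespace Pool.Agent.MP_12aee2_gt.H38

theorem mem_box {m ι : Type} (A : m → ι → ℝ) :
    A ∈ Set.Icc (-1 : m → ι → ℝ) 1 ↔ ∀ k i, |A k i| ≤ 1 := by
  simp only [Set.mem_Icc, Pi.le_def, abs_le, Pi.neg_apply, Pi.one_apply]
  exact ⟨fun hh k i => ⟨hh.1 k i, hh.2 k i⟩, fun hh => ⟨fun k i => (hh k i).1,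
    fun k i => (hh k i).2⟩⟩

theorem auer {ι m : Type} [Fintype ι] [Fintype m] [DecidableEq m] (W : Matrix ι m ℝ) (D : ℝ)
    (h : ∀ A : Matrix m ι ℝ, (∀ k i, |A k i| ≤ 1) → |(A * W).det| ≤ D)
    (A1 : Matrix m ι ℝ) (hA1 : ∀ k i, |A1 k i| ≤ 1) (h1 : (A1 * W).det ≠ 0) :
    ∃ U : Matrix m m ℝ, U.det ≠ 0 ∧ |U.det| ≤ D ∧
      ∀ v : m → ℝ, ∑ i, |(W *ᵥ v) i| ≤ ∑ k, |(U *ᵥ v) k| := by
  have hc : IsCompact (Set.Icc (-1 : m → ι → ℝ) 1) := isCompact_Icc
  have hcont : Continuous fun A : m → ι → ℝ => |(Matrix.of A * W).det| := by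
    refine Continuous.abs (Continuous.matrix_det (Continuous.matrix_mul ?_ continuous_const))
    exact continuous_id
  obtain ⟨A0, hA0, hmax⟩ := hc.exists_isMaxOn ⟨0, (mem_box 0).2 (by simp)⟩ hcont.continuousOn
  have hmax' : ∀ A : Matrix m ι ℝ, (∀ k i, |A k i| ≤ 1) →
      |(A * W).det| ≤ |(Matrix.of A0 * W).det| := fun A hA => hmax ((mem_box A).2 hA)
  set U : Matrix m m ℝ := Matrix.of A0 * W with hU
  have hp : 0 < |U.det| := lt_of_lt_of_le (abs_pos.2 h1) (hmax' A1 hA1)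
  have h0 : U.det ≠ 0 := abs_pos.1 hp
  refine ⟨U, h0, h _ ((mem_box A0).1 hA0), fun v => ?_⟩
  have hu : IsUnit U.det := isUnit_iff_ne_zero.2 h0
  set C : Matrix ι m ℝ := W * U⁻¹ with hC
  have hW : W = C * U := by
    rw [hC, Matrix.mul_assoc, Matrix.nonsing_inv_mul _ hu, Matrix.mul_one]
  have hcol : ∀ k, ∑ i, |C i k| ≤ 1 := by
    intro k
    let s : ι → ℝ := fun i => if 0 ≤ C i k then 1 else -1
    have e1 : (Matrix.of A0).updateRow k s * W
        = U.updateRow k (∑ j, (∑ i, s i * C i j) • U j) := by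
      ext a b
      by_cases hak : a = k
      · subst hak
        rw [Matrix.mul_apply]
        simp only [Matrix.updateRow_self, Finset.sum_apply, Pi.smul_apply, smul_eq_mul,
          Finset.sum_mul]
        rw [Finset.sum_comm]
        refine Finset.sum_congr rfl fun i _ => ?_
        conv_lhs => rw [hW, Matrix.mul_apply, Finset.mul_sum]
        exact Finset.sum_congr rfl fun j _ => by ring
      · rw [Matrix.mul_apply]
        simp only [Matrix.updateRow_ne hak]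
        rw [hU, Matrix.mul_apply]
    have e2 : ∑ i, s i * C i k = ∑ i, |C i k| := by
      refine Finset.sum_congr rfl fun i _ => ?_
      by_cases hh : 0 ≤ C i k
      · simp [s, hh, abs_of_nonneg hh]
      · simp [s, hh, abs_of_neg (not_le.1 hh)]
    have h3 := hmax' ((Matrix.of A0).updateRow k s) (by
      intro a i
      by_cases hak : a = k
      · subst hak
        by_cases hh : 0 ≤ C i a <;> simp [s, hh]
      · rw [Matrix.updateRow_ne hak]
        exact (mem_box A0).1 hA0 a i)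
    rw [e1, Matrix.det_updateRow_sum, e2, smul_eq_mul, abs_mul] at h3
    have h4 : |∑ i, abs (C i k)| ≤ 1 := by
      by_contra hh
      push Not at hh
      nlinarith
    exact (le_abs_self _).trans h4
  have h5 : ∀ i, |(W *ᵥ v) i| ≤ ∑ k, |C i k| * |(U *ᵥ v) k| := by
    intro i
    conv_lhs => rw [hW, ← Matrix.mulVec_mulVec]
    refine (Finset.abs_sum_le_sum_abs _ _).trans (le_of_eq ?_)
    exact Finset.sum_congr rfl fun k _ => abs_mul _ _
  refine (Finset.sum_le_sum fun i _ => h5 i).trans ?_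
  rw [Finset.sum_comm]
  refine Finset.sum_le_sum fun k _ => ?_
  rw [← Finset.sum_mul]
  exact mul_le_of_le_one_left (abs_nonneg _) (hcol k)

theorem auer2 {ι m : Type} [Fintype ι] [Fintype m] [DecidableEq m] (V : Matrix ι m ℝ) (D : ℝ)
    (hD : 0 < D) (h : ∀ A : Matrix m ι ℝ, (∀ k i, |A k i| ≤ 1) → |(A * V).det| ≤ D) :
    ∃ θ : ℝ, 0 < θ ∧ ∃ U : Matrix m m ℝ, U.det ≠ 0 ∧ |U.det| ≤ 2 * D ∧
      ∀ v : m → ℝ, ∑ i, |(V *ᵥ v) i| + θ * ∑ a, |v a| ≤ ∑ k, |(U *ᵥ v) k| := by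
  have e : ∀ (θ : ℝ) (A : Matrix m (ι ⊕ m) ℝ), A * Matrix.fromRows V (θ • (1 : Matrix m m ℝ))
      = A.toCols₁ * V + θ • A.toCols₂ := by
    intro θ A
    conv_lhs => rw [← Matrix.fromCols_toCols A, Matrix.fromCols_mul_fromRows]
    simp
  have hcont : Continuous fun z : ℝ × (m → ι ⊕ m → ℝ) =>
      |((Matrix.of z.2).toCols₁ * V + z.1 • (Matrix.of z.2).toCols₂).det| := by
    refine Continuous.abs (Continuous.matrix_det (Continuous.add
      (Continuous.matrix_mul ?_ continuous_const) (continuous_fst.smul ?_)))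
    · exact continuous_pi fun k => continuous_pi fun i => by
        simp only [Matrix.toCols₁, Matrix.of_apply]; fun_prop
    · exact continuous_pi fun k => continuous_pi fun i => by
        simp only [Matrix.toCols₂, Matrix.of_apply]; fun_prop
  have h1 := (isCompact_Icc (a := (-1 : m → ι ⊕ m → ℝ)) (b := 1)).eventually_forall_of_forall_eventually
    (x₀ := (0 : ℝ)) (P := fun θ A =>
      |((Matrix.of A).toCols₁ * V + θ • (Matrix.of A).toCols₂).det| < 2 * D) (fun A hA => by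
      refine hcont.continuousAt.eventually_lt_const ?_
      have := h (Matrix.of A).toCols₁ fun k i => (mem_box A).1 hA k _
      simp only [zero_smul, add_zero]
      linarith)
  obtain ⟨θ, h2, h3⟩ := ((h1.filter_mono nhdsWithin_le_nhds).and
    (eventually_mem_nhdsWithin (s := Ioi (0 : ℝ)))).exists
  have hθ : 0 < θ := h3
  obtain ⟨U, h4, h5, h6⟩ := auer (Matrix.fromRows V (θ • (1 : Matrix m m ℝ))) (2 * D)
    (fun A hA => by
      rw [e]
      exact (h2 A ((mem_box A).2 hA)).le) (Matrix.fromCols 0 1) (by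
      rintro k (i | i)
      · simp
      · by_cases hh : k = i <;> simp [Matrix.one_apply, hh]) (by
      rw [Matrix.fromCols_mul_fromRows]
      simp [hθ.ne'])
  refine ⟨θ, hθ, U, h4, h5, fun v => le_trans (le_of_eq ?_) (h6 v)⟩
  rw [Fintype.sum_sum_type, Finset.mul_sum]
  simp [Matrix.fromRows_mulVec, Matrix.smul_mulVec, abs_mul, abs_of_pos hθ]

variable {N : ℕ}

theorem det_bound {n : ℕ} {M : ClosedMfd (2 * n)} {σ : TwoForm M} (hσ : IsSymplectic σ)
    {f : Fin N → M.carrier → ℝ} (hf : ∀ i, ContMDiff (𝓡 (2 * n)) 𝓘(ℝ, ℝ) ∞ (f i))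
    {b : ℝ} (hb : 0 ≤ b) (hP : pbFun σ f ≤ ENNReal.ofReal b) (p : M.carrier)
    (y : EuclideanSpace ℝ (Fin (2 * n))) (hy : y ∈ (chartOf M p).target)
    (A : Matrix (Fin (2 * n)) (Fin N) ℝ) (hA : ∀ k i, |A k i| ≤ 1) :
    |(A * rows f p y).det| ≤ ((2 * n).factorial : ℝ) * b ^ n * √|(gram σ p y).det| := by
  have hu : IsUnit (gram σ p y).det := isUnit_iff_ne_zero.2 (det_gram hσ hy)
  have e : A * rows f p y = A * rows f p y * (gram σ p y)⁻¹ * gram σ p y := by
    rw [Matrix.mul_assoc _ _ (gram σ p y), Matrix.nonsing_inv_mul _ hu, Matrix.mul_one]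
  rw [e]
  refine sympl _ _ b hb fun k l => ?_
  have hm : ∀ k, A k ∈ Icc (-1 : Fin N → ℝ) 1 := fun k =>
    ⟨fun i => (abs_le.1 (hA k i)).1, fun i => (abs_le.1 (hA k i)).2⟩
  have h1 : ‖poisson σ (fun x => ∑ i, A k i * f i x) (fun x => ∑ i, A l i * f i x)
      ((chartOf M p).symm y)‖ₑ ≤ ENNReal.ofReal b := by
    refine le_trans ?_ hP
    exact le_iSup₂_of_le (A k) (hm k) (le_iSup₂_of_le (A l) (hm l) (le_iSup_of_le _ le_rfl))
  rw [poisson_comb hσ hf hy, ← ofReal_norm, ENNReal.ofReal_le_ofReal_iff hb,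
    Real.norm_eq_abs] at h1
  exact h1

theorem vol_par {d : ℕ} (U : Matrix (Fin d) (Fin d) ℝ) (hU : U.det ≠ 0)
    (z0 : EuclideanSpace ℝ (Fin d)) {ε : ℝ} (hε : 0 ≤ ε) :
    volume {z : EuclideanSpace ℝ (Fin d) | U *ᵥ (z.ofLp - z0.ofLp) ∈ Icc (fun _ => -ε) fun _ => ε}
      = ENNReal.ofReal (|U.det|⁻¹ * (2 * ε) ^ d) := by
  have h1 : {z : EuclideanSpace ℝ (Fin d) | U *ᵥ (z.ofLp - z0.ofLp) ∈ Icc (fun _ => -ε) fun _ => ε}
      = (MeasurableEquiv.toLp 2 (Fin d → ℝ)).symm ⁻¹' ((fun v => v + -z0.ofLp) ⁻¹'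
        (Matrix.toLin' U ⁻¹' Icc (fun _ => -ε) fun _ => ε)) := rfl
  rw [h1, (EuclideanSpace.volume_preserving_symm_measurableEquiv_toLp _).measure_preimage_equiv,
    measure_preimage_add_right, Measure.addHaar_preimage_linearMap _ (by simpa using hU),
    Real.volume_Icc_pi, LinearMap.det_toLin', abs_inv,
    ENNReal.ofReal_mul (by positivity), ENNReal.ofReal_pow (by positivity)]
  simp [two_mul]

theorem dens {n : ℕ} {M : ClosedMfd (2 * n)} {σ : TwoForm M} (hσ : IsSymplectic σ)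
    {f : Fin N → M.carrier → ℝ} (hf : ∀ i, ContMDiff (𝓡 (2 * n)) 𝓘(ℝ, ℝ) ∞ (f i))
    {b : ℝ} (hb : 0 < b) (hP : pbFun σ f ≤ ENNReal.ofReal b) (y : M.carrier) {η : ℝ} (hη : 0 < η)
    {Nb : Set M.carrier} (hNb : Nb ∈ nhds y) :
    ∃ δ : ℝ, 0 < δ ∧ δ ≤ η ∧ ∃ E : Set (EuclideanSpace ℝ (Fin (2 * n))), MeasurableSet E ∧
      E ⊆ (chartOf M y).target ∧ (∀ z ∈ E, (chartOf M y).symm z ∈ Nb ∧
        ∑ i, |f i y - f i ((chartOf M y).symm z)| ≤ δ) ∧
      ENNReal.ofReal ((2 * (δ / (2 * n + 1))) ^ (2 * n) / (4 * (2 * n).factorial * b ^ n))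
        ≤ ∫⁻ z in E, ENNReal.ofReal √|(gram σ y z).det| := by
  have hy := mem_chart_source (EuclideanSpace ℝ (Fin (2 * n))) y
  set z0 := chartOf M y y with hz0
  have hz : z0 ∈ (chartOf M y).target := (chartOf M y).map_source hy
  have hsy : (chartOf M y).symm z0 = y := (chartOf M y).left_inv hy
  have hn := (chartOf M y).open_target.mem_nhds hz
  set ρ : ℝ := √|(gram σ y z0).det| with hρ
  have hρ0 : 0 < ρ := Real.sqrt_pos.2 (abs_pos.2 (det_gram hσ hz))
  obtain ⟨θ, hθ, U, hU1, hU2, hU3⟩ := auer2 (rows f y z0) _ (by positivity)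
    (det_bound hσ hf hb.le hP y z0 hz)
  have e1 : ∀ᶠ z in nhds z0, (chartOf M y).symm z ∈ Nb :=
    (chartOf M y).continuousAt_symm hz (hsy.symm ▸ hNb)
  have e2 : ∀ᶠ z in nhds z0, ρ / 2 < √|(gram σ y z).det| := by
    have h1 : ContinuousAt (fun z => √|(gram σ y z).det|) z0 :=
      (Continuous.comp_continuousOn
        (g := fun A : Matrix (Fin (2 * n)) (Fin (2 * n)) ℝ => √|A.det|)
        (continuous_id.matrix_det.abs.sqrt) (cont_gram hσ y)).continuousAt hn
    exact h1.eventually_const_lt (by linarith)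
  have e3 : ∀ᶠ z in nhds z0, ∀ i, ‖(f i ∘ (chartOf M y).symm) z - (f i ∘ (chartOf M y).symm) z0
      - fderiv ℝ (f i ∘ (chartOf M y).symm) z0 (z - z0)‖ ≤ θ / (N + 1) * ‖z - z0‖ :=
    Filter.eventually_all.2 fun i =>
      (diff_chart (hf i) hz).hasFDerivAt.isLittleO.def (by positivity)
  obtain ⟨r0, hr0, hr⟩ := Metric.eventually_nhds_iff.1
    ((Filter.Eventually.and hn e1).and (e2.and e3))
  set δ := min η (θ * (r0 / 2)) with hδ
  have hδ0 : 0 < δ := lt_min hη (by positivity)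
  let E : Set (EuclideanSpace ℝ (Fin (2 * n))) := {z | U *ᵥ (z.ofLp - z0.ofLp)
    ∈ Icc (fun _ => -(δ / (2 * n + 1))) fun _ => δ / (2 * n + 1)}
  have hEm : MeasurableSet E := by
    have : Continuous fun z : EuclideanSpace ℝ (Fin (2 * n)) => U *ᵥ (z.ofLp - z0.ofLp) := by
      fun_prop
    exact this.measurable measurableSet_Icc
  have hnorm : ∀ z : EuclideanSpace ℝ (Fin (2 * n)), ‖z - z0‖ ≤ ∑ a, |(z.ofLp - z0.ofLp) a| := by
    intro z
    conv_lhs => rw [euc_sum (z - z0)]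
    refine (norm_sum_le _ _).trans (le_of_eq (Finset.sum_congr rfl fun a _ => ?_))
    simp [norm_smul]
  have hE1 : ∀ z ∈ E, ∑ i, |(rows f y z0 *ᵥ (z.ofLp - z0.ofLp)) i| + θ * ‖z - z0‖ ≤ δ := by
    intro z hz
    have h1 : ∑ k, |(U *ᵥ (z.ofLp - z0.ofLp)) k| ≤ ∑ _k : Fin (2 * n), δ / (2 * n + 1) :=
      Finset.sum_le_sum fun k _ => abs_le.2 ⟨hz.1 k, hz.2 k⟩
    have h2 : ∑ _k : Fin (2 * n), δ / (2 * n + 1) ≤ δ := by
      simp only [Finset.sum_const, Finset.card_univ, Fintype.card_fin, nsmul_eq_mul]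
      rw [← mul_div_assoc, div_le_iff₀ (by positivity)]
      push_cast
      nlinarith
    have h3 := mul_le_mul_of_nonneg_left (hnorm z) hθ.le
    linarith [hU3 (z.ofLp - z0.ofLp)]
  have hE2 : ∀ z ∈ E, dist z z0 < r0 := by
    intro z hz
    have h1 := hE1 z hz
    have h2 := Finset.sum_nonneg (s := Finset.univ) fun i _ =>
      abs_nonneg ((rows f y z0 *ᵥ (z.ofLp - z0.ofLp)) i)
    have h3 : δ ≤ θ * (r0 / 2) := min_le_right _ _
    have h4 : ‖z - z0‖ ≤ r0 / 2 := le_of_mul_le_mul_left (by linarith) hθ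
    rw [dist_eq_norm]
    linarith
  refine ⟨δ, hδ0, min_le_left _ _, E, hEm, fun z hz => (hr (hE2 z hz)).1.1,
    fun z hz => ⟨(hr (hE2 z hz)).1.2, ?_⟩, ?_⟩
  · have h1 : ∀ i, |f i y - f i ((chartOf M y).symm z)|
        ≤ |(rows f y z0 *ᵥ (z.ofLp - z0.ofLp)) i| + θ / (N + 1) * ‖z - z0‖ := by
      intro i
      have h2 := (hr (hE2 z hz)).2.2 i
      have h3 : fderiv ℝ (f i ∘ (chartOf M y).symm) z0 (z - z0)
          = (rows f y z0 *ᵥ (z.ofLp - z0.ofLp)) i := by
        conv_lhs => rw [euc_sum (z - z0)]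
        simp only [map_sum, map_smul, smul_eq_mul, Matrix.mulVec, dotProduct, rows, row,
          Matrix.of_apply]
        exact Finset.sum_congr rfl fun a _ => mul_comm _ _
      rw [h3, Real.norm_eq_abs, Function.comp_apply, Function.comp_apply, hsy] at h2
      have h4 := abs_le.1 h2
      have h5 := le_abs_self ((rows f y z0 *ᵥ (z.ofLp - z0.ofLp)) i)
      have h6 := neg_abs_le ((rows f y z0 *ᵥ (z.ofLp - z0.ofLp)) i)
      rw [abs_le]
      constructor <;> linarith [h4.1, h4.2]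
    refine (Finset.sum_le_sum fun i _ => h1 i).trans (le_trans ?_ (hE1 z hz))
    rw [Finset.sum_add_distrib]
    simp only [Finset.sum_const, Finset.card_univ, Fintype.card_fin, nsmul_eq_mul]
    have h7 : (N : ℝ) * (θ / (N + 1)) ≤ θ := by
      rw [← mul_div_assoc, div_le_iff₀ (by positivity)]
      nlinarith
    nlinarith [norm_nonneg (z - z0)]
  · refine le_trans ?_ (setLIntegral_mono' hEm (f := fun _ => ENNReal.ofReal (ρ / 2))
      fun z hz => ENNReal.ofReal_le_ofReal (hr (hE2 z hz)).2.1.le)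
    rw [setLIntegral_const, vol_par U hU1 z0 (by positivity),
      ← ENNReal.ofReal_mul (by positivity)]
    refine ENNReal.ofReal_le_ofReal ?_
    have h1 : (2 * (((2 * n).factorial : ℝ) * b ^ n * ρ))⁻¹ ≤ |U.det|⁻¹ :=
      inv_anti₀ (abs_pos.2 hU1) hU2
    refine le_trans (le_of_eq ?_) (mul_le_mul_of_nonneg_left
      (mul_le_mul_of_nonneg_right h1 (by positivity)) (by positivity))
    field_simp
    norm_num

end Pool.Agent.MP_12aee2_gt.H38
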