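import Mathlib
import Pool.Agent.Lib.helper79.Brouwer

/-!
The covering theorem of Lebesgue for Euclidean space, and its consequence for spaces with a regular
covering that receives a uniformly proper map from Euclidean space.
-/

namespace Pool.Agent.MP_12aee2_gt.H38.Euc

open Set Metric MeasureTheory

/-- A map that moves the points of a big ball by at most `D` hits all points of the unit ball. -/
theorem surj {m : ℕ} {D : ℝ} (hD : 0 ≤ D) {F : (Fin m → ℝ) → Fin m → ℝ} (hF : Continuous F)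
    (h : ∀ x ∈ closedBall (0 : Fin m → ℝ) (D + 1), ‖x - F x‖ ≤ D) {y : Fin m → ℝ}
    (hy : y ∈ closedBall (0 : Fin m → ℝ) 1) :
    ∃ x ∈ closedBall (0 : Fin m → ℝ) (D + 1), F x = y := by
  have h1 : 0 < D + 1 := by linarith
  have hm : ∀ z ∈ closedBall (0 : Fin m → ℝ) 1,
      (D + 1) • z ∈ closedBall (0 : Fin m → ℝ) (D + 1) := fun z hz => by
    rw [mem_closedBall_zero_iff] at hz ⊢
    rw [norm_smul, Real.norm_of_nonneg h1.le]
    exact mul_le_of_le_one_right h1.le hz
  obtain ⟨z, hz, e⟩ := Pool.Agent.Lib.helper79.brouwer_cube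
    (f := fun z => (D + 1)⁻¹ • ((D + 1) • z - F ((D + 1) • z) + y)) (by fun_prop) fun z hz => by
      rw [mem_closedBall_zero_iff, norm_smul, Real.norm_of_nonneg (inv_nonneg.2 h1.le),
        inv_mul_le_iff₀ h1, mul_one]
      exact (norm_add_le _ _).trans (add_le_add (h _ (hm z hz)) (mem_closedBall_zero_iff.1 hy))
  refine ⟨_, hm z hz, ?_⟩
  have e' := congrArg (fun v => (D + 1) • v) e
  simp only [smul_inv_smul₀ h1.ne'] at e'
  linear_combination (norm := module) -e'

theorem span_null {m : ℕ} {ι : Type} (a : ι → Fin m → ℝ) (S : Finset ι) (h0 : S.Nonempty)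
    (h : S.card ≤ m) : volume (affineSpan ℝ (a '' S) : Set (Fin m → ℝ)) = 0 := by
  classical
  refine Measure.addHaar_affineSubspace _ _ fun e => ?_
  obtain ⟨k, hk⟩ : ∃ k, S.card = k + 1 := ⟨S.card - 1, by have := h0.card_pos; omega⟩
  have h1 := finrank_vectorSpan_image_finset_le ℝ a S hk
  rw [Finset.coe_image, ← direction_affineSpan, e, AffineSubspace.direction_top, finrank_top,
    Module.finrank_fin_fun] at h1
  omega

/-- The covering theorem of Lebesgue. -/
theorem lebesgue {m : ℕ} {ι : Type} (O : ι → Set (Fin m → ℝ)) (ho : ∀ i, IsOpen (O i))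
    (hc : ∀ x, ∃ i, x ∈ O i) {D : ℝ} (hD : 0 ≤ D) (hb : ∀ i, ∀ x ∈ O i, ∀ y ∈ O i, dist x y ≤ D) :
    ∃ (x : Fin m → ℝ) (T : Finset ι), m + 1 ≤ T.card ∧ ∀ i ∈ T, x ∈ O i := by
  classical
  by_contra hn
  push Not at hn
  obtain ⟨T, hT⟩ := (isCompact_closedBall (0 : Fin m → ℝ) (D + 1)).elim_finite_subcover O ho
    fun x _ => mem_iUnion.2 (hc x)
  obtain ⟨f, hf⟩ := PartitionOfUnity.exists_isSubordinate
    (isClosed_closedBall (x := (0 : Fin m → ℝ)) (ε := D + 1)) (fun i : T => O i) (fun i => ho i)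
    fun x hx => by
      obtain ⟨i, hi, h⟩ := mem_iUnion₂.1 (hT hx)
      exact mem_iUnion.2 ⟨⟨i, hi⟩, h⟩
  have ha : ∀ i : T, ∃ a, ∀ x ∈ O i, dist x a ≤ D := fun i => by
    rcases (O i).eq_empty_or_nonempty with e | ⟨a, ha⟩
    · exact ⟨0, fun x hx => by rw [e] at hx; exact hx.elim⟩
    · exact ⟨a, fun x hx => hb i x hx a ha⟩
  choose a ha using ha
  have hm : ∀ i x, f i x ≠ 0 → x ∈ O i := fun i x h => hf i (subset_tsupport _ h)
  have h1 : ∀ x ∈ closedBall (0 : Fin m → ℝ) (D + 1), ∑ i, f i x = 1 := fun x hx => by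
    rw [← finsum_eq_sum_of_fintype]; exact f.sum_eq_one hx
  have hsub : closedBall (0 : Fin m → ℝ) 1 ⊆
      ⋃ S ∈ {S : Finset T | S.Nonempty ∧ S.card ≤ m}, (affineSpan ℝ (a '' S) : Set (Fin m → ℝ)) := by
    intro y hy
    obtain ⟨x, hx, rfl⟩ := surj hD (F := fun x => ∑ i, f i x • a i) (by fun_prop) (fun x hx => by
      have e : x - ∑ i, f i x • a i = ∑ i, f i x • (x - a i) := by
        simp only [smul_sub, Finset.sum_sub_distrib, ← Finset.sum_smul, h1 x hx, one_smul]
      rw [e]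
      refine (norm_sum_le _ _).trans ?_
      refine le_of_le_of_eq (Finset.sum_le_sum fun i _ => ?_)
        (show ∑ i, f i x * D = D by rw [← Finset.sum_mul, h1 x hx, one_mul])
      rw [norm_smul, Real.norm_of_nonneg (f.nonneg i x)]
      by_cases h : f i x = 0
      · rw [h, zero_mul, zero_mul]
      · exact mul_le_mul_of_nonneg_left ((dist_eq_norm _ _).symm.le.trans (ha i x (hm i x h)))
          (f.nonneg i x)) hy
    set S := Finset.univ.filter fun i => f i x ≠ 0 with hS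
    have h2 : ∑ i ∈ S, f i x = 1 := by rw [hS, Finset.sum_filter_ne_zero, h1 x hx]
    have h3 : ∑ i, f i x • a i = ∑ i ∈ S, f i x • a i := by
      refine (Finset.sum_subset (Finset.subset_univ _) fun i _ hi => ?_).symm
      rw [not_not.1 fun h => hi (Finset.mem_filter.2 ⟨Finset.mem_univ _, h⟩), zero_smul]
    refine mem_iUnion₂.2 ⟨S, ⟨Finset.nonempty_of_sum_ne_zero (h2.trans_ne one_ne_zero), ?_⟩, ?_⟩
    · by_contra h
      obtain ⟨i, hi, h'⟩ := hn x (S.map (Function.Embedding.subtype _))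
        (by rw [Finset.card_map]; omega)
      obtain ⟨j, hj, rfl⟩ := Finset.mem_map.1 hi
      exact h' (hm j x (Finset.mem_filter.1 hj).2)
    · rw [h3]
      exact (affineSpan ℝ (a '' S)).convex.sum_mem (fun i _ => f.nonneg i x) h2
        fun i hi => subset_affineSpan ℝ _ ⟨i, hi, rfl⟩
  exact (measure_closedBall_pos volume (0 : Fin m → ℝ) one_pos).ne'
    (measure_mono_null hsub ((measure_biUnion_null_iff (Set.toFinite _).countable).2
      fun S hS => span_null a S hS.1 hS.2))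

variable {X E G : Type} [TopologicalSpace X] [TopologicalSpace E] [Group G] [MulAction G E]
  {q : E → X}

/-- The image of an open set under a continuous section is open. -/
theorem open_sec (hq : IsQuotientCoveringMap q G) {W : Set X} (hW : IsOpen W) {t : X → E}
    (ht : ContinuousOn t W) (hs : ∀ y ∈ W, q (t y) = y) : IsOpen (t '' W) := by
  rw [isOpen_iff_mem_nhds]
  rintro _ ⟨x, hx, rfl⟩
  obtain ⟨U, hU, hd⟩ := hq.disjoint (t x)
  have hc : ContinuousAt q (t x) := hq.continuous.continuousAt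
  have h1 : ∀ᶠ e in nhds (t x), q e ∈ W := hc (by rw [hs x hx]; exact hW.mem_nhds hx)
  have h2 : ∀ᶠ e in nhds (t x), t (q e) ∈ U := by
    have : ContinuousAt (fun e => t (q e)) (t x) :=
      ContinuousAt.comp (by rw [hs x hx]; exact ht.continuousAt (hW.mem_nhds hx)) hc
    exact this (show U ∈ nhds (t (q (t x))) by rw [hs x hx]; exact hU)
  filter_upwards [hU, h1, h2] with e h0 h1 h2
  obtain ⟨g, hg⟩ := hq.apply_eq_iff_mem_orbit.1 (hs _ h1)
  have : g = 1 := hd g ⟨_, ⟨e, h0, hg⟩, h2⟩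
  exact ⟨q e, h1, by rw [← hg, this]; exact one_smul G e⟩

/-- Covers by sets with sections have a point in `m + 1` sets. -/
theorem mult [CompactSpace X] [T2Space X] (hq : IsQuotientCoveringMap q G) {m : ℕ}
    {k : (Fin m → ℝ) → E} (hk : Continuous k)
    (hb : ∀ K, IsCompact K → ∃ D, ∀ (g : G) x y, g • k x ∈ K → g • k y ∈ K → dist x y ≤ D)
    (V : Set (Set X)) (hV : V.Finite)
    (hW : ∀ W ∈ V, IsOpen W ∧ ∃ t : X → E, ContinuousOn t W ∧ ∀ y ∈ W, q (t y) = y)
    (hc : ⋃₀ V = univ) : ∃ x, m + 1 ≤ {W ∈ V | x ∈ W}.ncard := by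
  classical
  have := hq.toContinuousConstSMul
  have := hq.isCancelSMul
  have := hV.to_subtype
  choose t ht hs using fun W : V => (hW W W.2).2
  obtain ⟨v, hv, hvo, hvc⟩ := exists_subset_iUnion_closure_subset (isClosed_univ (X := X))
    (u := fun W : V => (W : Set X)) (fun W => (hW W W.2).1) (fun x _ => Set.toFinite _)
    (by rw [← sUnion_eq_iUnion, hc])
  have hsub : ∀ W, v W ⊆ W := fun W => subset_closure.trans (hvc W)
  obtain ⟨D, hD⟩ := hb (⋃ W, t W '' closure (v W)) (isCompact_iUnion fun W =>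
    isClosed_closure.isCompact.image_of_continuousOn ((ht W).mono (hvc W)))
  obtain ⟨x, T, hT, hx⟩ := lebesgue (fun i : V × G => (fun x => i.2 • k x) ⁻¹' (t i.1 '' v i.1))
    (fun i => (open_sec hq (hvo i.1) ((ht i.1).mono (hsub i.1))
      fun y hy => hs i.1 y (hsub i.1 hy)).preimage (hk.const_smul i.2))
    (fun x => by
      obtain ⟨W, hW⟩ := mem_iUnion.1 (hv (mem_univ (q (k x))))
      obtain ⟨g, hg⟩ := hq.apply_eq_iff_mem_orbit.1 (hs W _ (hsub W hW))
      exact ⟨(W, g), _, hW, hg.symm⟩)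
    (le_max_right D 0) fun i x hx y hy =>
      (hD i.2 x y (mem_iUnion.2 ⟨i.1, image_mono subset_closure hx⟩)
        (mem_iUnion.2 ⟨i.1, image_mono subset_closure hy⟩)).trans (le_max_left _ _)
  have key : ∀ i ∈ T, q (k x) ∈ v i.1 ∧ t i.1 (q (k x)) = i.2 • k x := by
    intro i hi
    obtain ⟨a, ha, e⟩ := hx i hi
    have e' : q (k x) = a := by rw [← hs i.1 a (hsub i.1 ha), e, hq.map_smul]
    rw [e']
    exact ⟨ha, e⟩
  refine ⟨q (k x), hT.trans ?_⟩
  rw [← Set.ncard_coe_finset]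
  refine Set.ncard_le_ncard_of_injOn (fun i => (i.1 : Set X))
    (fun i hi => ⟨i.1.2, hsub i.1 (key i hi).1⟩) (fun i hi j hj e => ?_) (hV.subset fun _ h => h.1)
  have e1 : i.1 = j.1 := Subtype.ext e
  refine Prod.ext e1 (IsCancelSMul.right_cancel _ _ (k x) ?_)
  rw [← (key i hi).2, e1, (key j hj).2]

end Pool.Agent.MP_12aee2_gt.H38.Euc
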