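import Mathlib

/-!
Minimal separators: a finite cover by small balls with small local weight gives a cover of small
multiplicity.
-/

open Set MeasureTheory

namespace Pool.Agent.MP_12aee2_gt.H38

theorem aver {ι : Type} (S : Finset ι) (c r w : ι → ℝ) (hr : ∀ b, 0 ≤ r b) (hw : ∀ b, 0 ≤ w b)
    (a h : ℝ) (hh : 0 < h) :
    ∃ t ∈ Icc a (a + h), h * ∑ b ∈ S with |c b - t| < r b, w b ≤ ∑ b ∈ S, 2 * r b * w b := by
  let φ : ℝ → ℝ := fun t => ∑ b ∈ S, (Ioo (c b - r b) (c b + r b)).indicator (fun _ => w b) t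
  have hi : ∀ b, Integrable ((Ioo (c b - r b) (c b + r b)).indicator (fun _ => w b)) := fun b =>
    (integrable_indicator_iff measurableSet_Ioo).2 (integrableOn_const (by simp))
  have hφ : Integrable φ := integrable_finsetSum _ fun b _ => hi b
  have hφ0 : ∀ t, 0 ≤ φ t := fun t =>
    Finset.sum_nonneg fun b _ => indicator_nonneg (fun _ _ => hw b) t
  have h1 : ∫ t, φ t = ∑ b ∈ S, 2 * r b * w b := by
    rw [integral_finsetSum _ fun b _ => hi b]
    refine Finset.sum_congr rfl fun b _ => ?_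
    rw [integral_indicator_const _ measurableSet_Ioo, Real.volume_real_Ioo_of_le
      (by linarith [hr b]), smul_eq_mul]
    ring
  obtain ⟨t, ht, h2⟩ := exists_le_setAverage (μ := volume) (s := Icc a (a + h)) (f := φ)
    (by simp [hh]) (by simp) hφ.integrableOn
  refine ⟨t, ht, ?_⟩
  have h3 : ∑ b ∈ S with |c b - t| < r b, w b = φ t := by
    rw [Finset.sum_filter]
    refine Finset.sum_congr rfl fun b _ => ?_
    have : |c b - t| < r b ↔ t ∈ Ioo (c b - r b) (c b + r b) := by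
      rw [abs_lt, mem_Ioo]
      constructor <;> rintro ⟨h4, h5⟩ <;> constructor <;> linarith
    simp only [this, indicator]
  rw [setAverage_eq, Real.volume_real_Icc_of_le (by linarith), add_sub_cancel_left, smul_eq_mul,
    le_inv_mul_iff₀ hh] at h2
  rw [h3, ← h1]
  exact h2.trans (setIntegral_le_integral hφ (Filter.Eventually.of_forall hφ0))

variable {X : Type} [TopologicalSpace X]

/-- the union of the cells -/
def cells (D : X → X → ℝ) (r : X → ℝ) (S : Finset X) : Set X := {y | ∃ b ∈ S, D b y < r b}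

/-- a finite family of open sets, each inside a ball of radius one -/
def Fam (D : X → X → ℝ) (V : Set (Set X)) : Prop :=
  V.Finite ∧ ∀ O ∈ V, IsOpen O ∧ ∃ x, ∀ y ∈ O, D x y < 1

/-- `T` separates `S` -/
def Sep (D : X → X → ℝ) (r : X → ℝ) (S T : Finset X) : Prop :=
  ∃ V : Set (Set X), Fam D V ∧ V.PairwiseDisjoint id ∧ cells D r S \ cells D r T ⊆ ⋃₀ V

variable {D : X → X → ℝ} {r : X → ℝ}

open Classical in
theorem sep_step (hsymm : ∀ x y, D x y = D y x) (htri : ∀ x y z, D x z ≤ D x y + D y z)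
    (hc : ∀ x, Continuous (D x)) {S T : Finset X} (h : Sep D r S T) (x : X) {t : ℝ}
    (ht : t ≤ 1) : Sep D r S (T.filter (fun b => ¬ D x b + r b ≤ t)
      ∪ S.filter (fun b => |D x b - t| < r b)) := by
  obtain ⟨V, ⟨hV1, hV2⟩, hV3, hV4⟩ := h
  refine ⟨insert {y | D x y < t} ((fun O => O ∩ {y | t < D x y}) '' V),
    ⟨(hV1.image _).insert _, ?_⟩, ?_, ?_⟩
  · rintro O (rfl | ⟨O, hO, rfl⟩)
    · exact ⟨isOpen_lt (hc x) continuous_const, x, fun y hy => lt_of_lt_of_le hy ht⟩
    · obtain ⟨h1, z, hz⟩ := hV2 O hO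
      exact ⟨h1.inter (isOpen_lt continuous_const (hc x)), z, fun y hy => hz y hy.1⟩
  · refine PairwiseDisjoint.insert ?_ ?_
    · rintro _ ⟨A, hA, rfl⟩ _ ⟨B, hB, rfl⟩ hne
      exact (hV3 hA hB fun h => hne (by rw [h])).mono inter_subset_left inter_subset_left
    · rintro _ ⟨A, hA, rfl⟩ _
      exact Set.disjoint_left.2 fun y h1 h2 => lt_asymm (show D x y < t from h1) h2.2
  · rintro y ⟨⟨b, hb, hy⟩, hn⟩
    rcases lt_trichotomy (D x y) t with h1 | h1 | h1
    · exact ⟨_, mem_insert _ _, h1⟩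
    · refine absurd ⟨b, Finset.mem_union_right _ (Finset.mem_filter.2 ⟨hb, ?_⟩), hy⟩ hn
      have h2 := htri x b y
      have h3 := htri x y b
      rw [hsymm y b] at h3
      rw [abs_lt]
      constructor <;> linarith
    · obtain ⟨O, hO, hyO⟩ := hV4 ⟨⟨b, hb, hy⟩, fun ⟨c, hc1, hc2⟩ => hn ⟨c,
        Finset.mem_union_left _ (Finset.mem_filter.2 ⟨hc1, fun h2 => by
          have := htri x c y
          linarith⟩), hc2⟩⟩
      exact ⟨_, mem_insert_of_mem _ ⟨O, hO, rfl⟩, hyO, h1⟩

open Classical in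
theorem pap (hself : ∀ x, D x x = 0) (hsymm : ∀ x y, D x y = D y x)
    (htri : ∀ x y z, D x z ≤ D x y + D y z) (hc : ∀ x, Continuous (D x)) {η : ℝ} (hη : 0 < η)
    (hr : ∀ b, 0 < r b ∧ r b ≤ η) (k : ℕ) (hk : η * (4 * k + 1) ≤ 1) (S : Finset X)
    (hS : ∀ x, ∑ b ∈ S with D x b < η * (4 * k + 1), r b ^ k < η ^ k) :
    ∃ V : Set (Set X), Fam D V ∧ cells D r S ⊆ ⋃₀ V ∧ ∀ y, {O ∈ V | y ∈ O}.ncard ≤ k := by
  induction k generalizing S with
  | zero =>
    refine ⟨∅, ⟨finite_empty, by simp⟩, ?_, by simp⟩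
    rintro y ⟨b, hb, -⟩
    have h1 := hS b
    have h2 : r b ^ 0 ≤ ∑ c ∈ S with D b c < η * (4 * (0 : ℕ) + 1), r c ^ 0 :=
      Finset.single_le_sum (f := fun c => r c ^ 0) (fun c _ => by simp)
        (Finset.mem_filter.2 ⟨hb, by simpa [hself] using hη⟩)
    simp only [pow_zero] at h1 h2
    linarith
  | succ k ih =>
    push_cast at hk hS
    have hk0 : (0 : ℝ) ≤ k := Nat.cast_nonneg k
    obtain ⟨T, hT, hmin⟩ := (S.powerset.filter (Sep D r S)).exists_min_image
      (fun T => ∑ b ∈ T, r b ^ k) ⟨S, Finset.mem_filter.2 ⟨Finset.mem_powerset_self S,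
        ∅, ⟨finite_empty, by simp⟩, pairwiseDisjoint_empty, by simp⟩⟩
    obtain ⟨hTS, hsep⟩ := Finset.mem_filter.1 hT
    rw [Finset.mem_powerset] at hTS
    have hw : ∀ b, 0 ≤ r b ^ k := fun b => pow_nonneg (hr b).1.le k
    obtain ⟨V1, hV1, hV2, hV3⟩ := ih (by nlinarith) T (by
      intro x
      obtain ⟨t, ht, h1⟩ := aver (S.filter fun b => D x b < η * (4 * (k + 1) + 1)) (D x) r
        (fun b => r b ^ k) (fun b => (hr b).1.le) hw (η * (4 * k + 2)) (2 * η) (by linarith)
      have h2 := hmin _ (Finset.mem_filter.2 ⟨Finset.mem_powerset.2 (Finset.union_subset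
        ((Finset.filter_subset _ _).trans hTS) (Finset.filter_subset _ _)),
        sep_step hsymm htri hc hsep x (t := t) (by nlinarith [ht.2])⟩)
      have h3 := Finset.sum_filter_add_sum_filter_not T (fun b => D x b + r b ≤ t)
        (fun b => r b ^ k)
      have h4 := Finset.sum_union_inter (s₁ := T.filter fun b => ¬ D x b + r b ≤ t)
        (s₂ := S.filter fun b => |D x b - t| < r b) (f := fun b => r b ^ k)
      have h5 := Finset.sum_nonneg (s := (T.filter fun b => ¬ D x b + r b ≤ t) ∩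
        (S.filter fun b => |D x b - t| < r b)) fun b _ => hw b
      have h6 : ∑ b ∈ T with D x b < η * (4 * k + 1), r b ^ k
          ≤ ∑ b ∈ T with D x b + r b ≤ t, r b ^ k := by
        refine Finset.sum_le_sum_of_subset_of_nonneg (fun b hb => ?_) fun b _ _ => hw b
        rw [Finset.mem_filter] at hb ⊢
        exact ⟨hb.1, by nlinarith [hb.2, ht.1, (hr b).2]⟩
      have h7 : (S.filter fun b => D x b < η * (4 * (k + 1) + 1)).filter
          (fun b => |D x b - t| < r b) = S.filter fun b => |D x b - t| < r b := by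
        rw [Finset.filter_filter]
        refine Finset.filter_congr fun b _ => ⟨fun h => h.2, fun h => ⟨?_, h⟩⟩
        nlinarith [(abs_lt.1 h).2, ht.2, (hr b).2]
      have h8 : ∑ b ∈ S with D x b < η * (4 * (k + 1) + 1), 2 * r b * r b ^ k
          = 2 * ∑ b ∈ S with D x b < η * (4 * (k + 1) + 1), r b ^ (k + 1) := by
        rw [Finset.mul_sum]
        exact Finset.sum_congr rfl fun b _ => by ring
      rw [h7, h8] at h1
      have h9 := hS x
      rw [pow_succ η] at h9
      refine lt_of_mul_lt_mul_left (a := η) ?_ hη.le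
      nlinarith)
    obtain ⟨V, hW1, hW2, hW3⟩ := hsep
    refine ⟨V1 ∪ V, ⟨hV1.1.union hW1.1, fun O hO => hO.elim (hV1.2 O) (hW1.2 O)⟩, fun y hy => ?_,
      fun y => ?_⟩
    · rw [sUnion_union]
      by_cases h : y ∈ cells D r T
      · exact Or.inl (hV2 h)
      · exact Or.inr (hW3 ⟨hy, h⟩)
    · have e : {O ∈ V1 ∪ V | y ∈ O} = {O ∈ V1 | y ∈ O} ∪ {O ∈ V | y ∈ O} := by
        ext O
        simp [or_and_right]
      rw [e]
      refine (ncard_union_le _ _).trans (add_le_add (hV3 y) ?_)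
      refine (ncard_le_one (hW1.1.subset (sep_subset _ _))).2 fun A hA B hB => ?_
      by_contra hne
      exact Set.disjoint_left.1 (hW2 hA.1 hB.1 hne) hA.2 hB.2

end Pool.Agent.MP_12aee2_gt.H38
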