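import Mathlib
import Pool.Agent.MP_12aee2_gt.h38.Chart

/-!
Change of chart: disjoint pieces of charts inside `W` have total volume at most `vol W`.
-/

open Matrix Set MeasureTheory
open scoped Manifold ContDiff ENNReal

namespace Pool.Agent.MP_12aee2_gt.H38

variable {d : ℕ} {M : ClosedMfd d} {σ : TwoForm M}

/-- the transition map -/
noncomputable def tr (M : ClosedMfd d) (p b : M.carrier) :
    OpenPartialHomeomorph (EuclideanSpace ℝ (Fin d)) (EuclideanSpace ℝ (Fin d)) :=
  (chartOf M p).symm.trans (chartOf M b)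

theorem tr_mdiff (p b : M.carrier) : (tr M p b).MDifferentiable (𝓡 d) (𝓡 d) :=
  (mdifferentiable_chart (I := 𝓡 d) p).symm.trans (mdifferentiable_chart (I := 𝓡 d) b)

theorem tr_symm {p b : M.carrier} {z : EuclideanSpace ℝ (Fin d)} (hz : z ∈ (tr M p b).source) :
    (chartOf M b).symm (tr M p b z) = (chartOf M p).symm z :=
  (chartOf M b).left_inv hz.2

theorem formVal_congr {x x' : M.carrier} (h : x = x') (v w : EuclideanSpace ℝ (Fin d)) :
    formVal σ x v w = formVal σ x' v w := by
  subst h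
  rfl

theorem dens_tr {p b : M.carrier} {z : EuclideanSpace ℝ (Fin d)} (hz : z ∈ (tr M p b).source) :
    √|(gram σ p z).det| = |(fderiv ℝ (tr M p b) z).det| * √|(gram σ b (tr M p b z)).det| := by
  have hb : tr M p b z ∈ (chartOf M b).target := (chartOf M b).map_source hz.2
  have h1 : (chartOf M p).symm =ᶠ[nhds z] (chartOf M b).symm ∘ tr M p b := by
    filter_upwards [(tr M p b).open_source.mem_nhds hz] with w hw
    exact (tr_symm hw).symm
  have h2 := mfderiv_comp (I := 𝓡 d) (I' := 𝓡 d) (I'' := 𝓡 d) z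
    ((mdifferentiable_chart (I := 𝓡 d) b).mdifferentiableAt_symm hb)
    ((tr_mdiff p b).mdifferentiableAt hz)
  rw [mfderiv_eq_fderiv] at h2
  have h3 := (h1.mfderiv_eq (I := 𝓡 d) (I' := 𝓡 d)).trans h2
  have h4 : ∀ v, (chartInvDeriv M p z v : EuclideanSpace ℝ (Fin d))
      = chartInvDeriv M b (tr M p b z) (fderiv ℝ (tr M p b) z v) := fun v =>
    congrArg (fun L => L v) h3
  let T : Matrix (Fin d) (Fin d) ℝ := LinearMap.toMatrix (EuclideanSpace.basisFun (Fin d) ℝ).toBasis
    (EuclideanSpace.basisFun (Fin d) ℝ).toBasis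
    (fderiv ℝ (tr M p b) z : EuclideanSpace ℝ (Fin d) →ₗ[ℝ] EuclideanSpace ℝ (Fin d))
  have hT : ∀ k a, T k a = (fderiv ℝ (tr M p b) z (EuclideanSpace.single a 1)).ofLp k := by
    intro k a
    simp [T, LinearMap.toMatrix_apply]
  have h5 : gram σ p z = Tᵀ * gram σ b (tr M p b z) * T := by
    ext a c
    have h6 := formVal_chart (σ := σ) (p := p) (y := z) (EuclideanSpace.single a 1)
      (EuclideanSpace.single c 1)
    have h7 := formVal_chart (σ := σ) (p := b) (y := tr M p b z)
      (fderiv ℝ (tr M p b) z (EuclideanSpace.single a 1))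
      (fderiv ℝ (tr M p b) z (EuclideanSpace.single c 1))
    rw [← h4, ← h4] at h7
    have h8 := h6.symm.trans ((formVal_congr (tr_symm hz) _ _).symm.trans h7)
    have h9 : ((EuclideanSpace.single a (1 : ℝ)).ofLp ᵥ* gram σ p z) ⬝ᵥ
        (EuclideanSpace.single c (1 : ℝ)).ofLp = gram σ p z a c := by simp
    rw [← h9, h8]
    simp only [Matrix.mul_apply, Matrix.transpose_apply, hT, dotProduct, Matrix.vecMul]
  have h9 : T.det = (fderiv ℝ (tr M p b) z).det := LinearMap.det_toMatrix _ _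
  rw [h5, Matrix.det_mul, Matrix.det_mul, Matrix.det_transpose, h9, mul_right_comm, abs_mul,
    Real.sqrt_mul (abs_nonneg _), abs_mul, Real.sqrt_mul_self (abs_nonneg _)]

theorem sum_le_vol (W : Set M.carrier) (S : Finset M.carrier)
    (E : M.carrier → Set (EuclideanSpace ℝ (Fin d))) (hm : ∀ b, MeasurableSet (E b))
    (ht : ∀ b, E b ⊆ (chartOf M b).target) (hW : ∀ b ∈ S, (chartOf M b).symm '' E b ⊆ W)
    (hd : (S : Set M.carrier).PairwiseDisjoint fun b => (chartOf M b).symm '' E b) :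
    ∑ b ∈ S, ∫⁻ z in E b, ENNReal.ofReal √|(gram σ b z).det| ≤ vol σ W := by
  refine le_iInf₂ fun s B => le_iInf₂ fun hB hcov => ?_
  let P : M.carrier → M.carrier → Set (EuclideanSpace ℝ (Fin d)) := fun p b =>
    B p ∩ (tr M p b).symm '' (E b ∩ (tr M p b).target)
  have hPm : ∀ p b, MeasurableSet (P p b) := fun p b => (hB p).1.inter
    (((hm b).inter (tr M p b).open_target.measurableSet).image_of_continuousOn_injOn
      ((tr M p b).continuousOn_symm.mono inter_subset_right)
      ((tr M p b).symm.injOn.mono inter_subset_right))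
  have hPs : ∀ p b, ∀ z ∈ P p b, z ∈ (tr M p b).source ∧ tr M p b z ∈ E b := by
    rintro p b _ ⟨-, w, hw, rfl⟩
    exact ⟨(tr M p b).map_target hw.2, by rw [(tr M p b).right_inv hw.2]; exact hw.1⟩
  have h1 : ∀ b ∈ S, ∫⁻ z in E b, ENNReal.ofReal √|(gram σ b z).det|
      ≤ ∑ p ∈ s, ∫⁻ z in P p b, ENNReal.ofReal √|(gram σ p z).det| := by
    intro b hb
    have h2 : E b ⊆ ⋃ p : s, tr M p b '' P p b := by
      intro w hw
      obtain ⟨p, hp, z, hz, h3⟩ := hcov _ (hW b hb ⟨w, hw, rfl⟩)
      have h4 : z ∈ (tr M p b).source := ⟨(hB p).2 hz, by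
        show (chartOf M p).symm z ∈ (chartOf M b).source
        rw [h3]
        exact (chartOf M b).map_target (ht b hw)⟩
      have h5 : tr M p b z = w := by
        show chartOf M b ((chartOf M p).symm z) = w
        rw [h3]
        exact (chartOf M b).right_inv (ht b hw)
      refine mem_iUnion.2 ⟨⟨p, hp⟩, z, ⟨hz, w, ⟨hw, h5 ▸ (tr M p b).map_source h4⟩, ?_⟩, h5⟩
      rw [← h5]
      exact (tr M p b).left_inv h4
    refine (lintegral_mono_set h2).trans ((lintegral_iUnion_le _ _).trans (le_of_eq ?_))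
    rw [tsum_fintype, ← Finset.sum_coe_sort s]
    refine Finset.sum_congr rfl fun p _ => ?_
    rw [lintegral_image_eq_lintegral_abs_det_fderiv_mul volume (hPm p b)
      (f' := fun z => fderiv ℝ (tr M p b) z)
      (fun z hz => (mdifferentiableAt_iff_differentiableAt.1
        ((tr_mdiff p.1 b).mdifferentiableAt (hPs _ _ z hz).1)).hasFDerivAt.hasFDerivWithinAt)
      ((tr M p b).injOn.mono fun z hz => (hPs _ _ z hz).1)]
    refine setLIntegral_congr_fun (hPm p b) fun z hz => ?_
    rw [dens_tr (hPs _ _ z hz).1, ENNReal.ofReal_mul (abs_nonneg _)]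
  refine (Finset.sum_le_sum h1).trans ?_
  rw [Finset.sum_comm]
  refine Finset.sum_le_sum fun p _ => ?_
  rw [← lintegral_biUnion_finset ?_ fun b _ => hPm p b]
  · exact lintegral_mono_set (iUnion₂_subset fun b _ => inter_subset_left)
  · intro b hb c hc hbc
    refine Set.disjoint_left.2 fun z h2 h3 => Set.disjoint_left.1 (hd hb hc hbc)
      ⟨_, (hPs p b z h2).2, tr_symm (hPs p b z h2).1⟩ ⟨_, (hPs p c z h3).2, tr_symm (hPs p c z h3).1⟩

end Pool.Agent.MP_12aee2_gt.H38
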