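import Mathlib
import Pool.Agent.MP_12aee2_gt.h38.Pap
import Pool.Agent.MP_12aee2_gt.h38.VolC
import Pool.Agent.MP_12aee2_gt.h38.Dens
import Pool.Agent.MP_12aee2_gt.h38.Cov

/-!
The lower bound for the Poisson bracket invariant by the volume of one set of the cover.
-/

open Matrix Set MeasureTheory
open scoped Manifold ContDiff ENNReal

namespace Pool.Agent.MP_12aee2_gt.H38

variable {N : ℕ}

theorem share {d : ℕ} {M : ClosedMfd d} {σ : TwoForm M} (hσ : IsSymplectic σ)
    {U : Fin N → Set M.carrier} (ho : ∀ i, IsOpen (U i)) {f : Fin N → M.carrier → ℝ}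
    (h0 : ∀ i x, 0 ≤ f i x) (hs : ∀ x, ∑ i, f i x = 1) (hsub : ∀ i x, 0 < f i x → x ∈ U i)
    (x : M.carrier) (S : Finset M.carrier) (E : M.carrier → Set (EuclideanSpace ℝ (Fin d)))
    (hm : ∀ b, MeasurableSet (E b)) (ht : ∀ b, E b ⊆ (chartOf M b).target)
    (hd : (S : Set M.carrier).PairwiseDisjoint fun b => (chartOf M b).symm '' E b)
    (hx : ∀ b ∈ S, ∀ z ∈ E b, ∑ j, |f j x - f j ((chartOf M b).symm z)| ≤ 1 / 2) :
    ∑ b ∈ S, ∫⁻ z in E b, ENNReal.ofReal √|(gram σ b z).det|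
      ≤ ∑ j, ENNReal.ofReal (2 * f j x) * vol σ (U j) := by
  classical
  let O : M.carrier → Fin N → Set (EuclideanSpace ℝ (Fin d)) := fun b j =>
    (chartOf M b).target ∩ (chartOf M b).symm ⁻¹' U j
  have hO : ∀ b j, MeasurableSet (O b j) := fun b j =>
    ((chartOf M b).isOpen_inter_preimage_symm (ho j)).measurableSet
  have h1 : ∀ b ∈ S, ∫⁻ z in E b, ENNReal.ofReal √|(gram σ b z).det|
      ≤ ∑ j, ENNReal.ofReal (2 * f j x)
        * ∫⁻ z in O b j ∩ E b, ENNReal.ofReal √|(gram σ b z).det| := by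
    intro b hb
    have h2 : AEMeasurable (fun z => ENNReal.ofReal √|(gram σ b z).det|)
        (volume.restrict (E b)) :=
      (((Continuous.comp_continuousOn (g := fun A : Matrix (Fin d) (Fin d) ℝ => √|A.det|)
        (continuous_id.matrix_det.abs.sqrt) (cont_gram hσ b)).mono (ht b)).aemeasurable
        (hm b)).ennreal_ofReal
    simp only [← setLIntegral_indicator (hO b _),
      ← lintegral_const_mul' _ _ ENNReal.ofReal_ne_top]
    rw [← lintegral_finsetSum' _ fun j _ => (h2.indicator (hO b j)).const_mul _]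
    refine setLIntegral_mono' (hm b) fun z hz => ?_
    have h3 : (1 : ℝ) ≤ ∑ j, if z ∈ O b j then 2 * f j x else 0 := by
      have h4 : ∀ j, 2 * f j x ≤ (if z ∈ O b j then 2 * f j x else 0)
          + 2 * |f j x - f j ((chartOf M b).symm z)| := by
        intro j
        split_ifs with h
        · linarith [abs_nonneg (f j x - f j ((chartOf M b).symm z))]
        · have h5 : f j ((chartOf M b).symm z) = 0 :=
            le_antisymm (not_lt.1 fun h6 => h ⟨ht b hz, hsub _ _ h6⟩) (h0 _ _)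
          rw [h5, sub_zero, abs_of_nonneg (h0 _ _), zero_add]
      have h6 := Finset.sum_le_sum (s := Finset.univ) fun j _ => h4 j
      rw [Finset.sum_add_distrib, ← Finset.mul_sum, ← Finset.mul_sum, hs] at h6
      linarith [hx b hb z hz]
    have h7 : ∀ j, ENNReal.ofReal (2 * f j x) * (O b j).indicator
        (fun z => ENNReal.ofReal √|(gram σ b z).det|) z
        = ENNReal.ofReal (if z ∈ O b j then 2 * f j x else 0)
          * ENNReal.ofReal √|(gram σ b z).det| := by
      intro j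
      by_cases h : z ∈ O b j <;> simp [h]
    simp only [h7]
    rw [← Finset.sum_mul, ← ENNReal.ofReal_sum_of_nonneg fun j _ => by
      split_ifs
      · linarith [h0 j x]
      · exact le_rfl]
    exact le_mul_of_one_le_left' (ENNReal.one_le_ofReal.2 h3)
  refine (Finset.sum_le_sum h1).trans ?_
  rw [Finset.sum_comm]
  refine Finset.sum_le_sum fun j _ => ?_
  rw [← Finset.mul_sum]
  refine mul_le_mul' le_rfl (sum_le_vol (U j) S (fun b => O b j ∩ E b)
    (fun b => (hO b j).inter (hm b)) (fun b => inter_subset_right.trans (ht b)) ?_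
    (hd.mono fun b => image_mono inter_subset_right))
  rintro b - _ ⟨z, hz, rfl⟩
  exact hz.1.2

theorem one_set {n : ℕ} {M : ClosedMfd (2 * n)} {σ : TwoForm M} (hσ : IsSymplectic σ)
    {U : Fin N → Set M.carrier} (ho : ∀ i, IsOpen (U i)) {f : Fin N → M.carrier → ℝ}
    (hf : ∀ i, ContMDiff (𝓡 (2 * n)) 𝓘(ℝ, ℝ) ∞ (f i))
    (h0 : ∀ i x, 0 ≤ f i x) (hs : ∀ x, ∑ i, f i x = 1) (hsub : ∀ i x, 0 < f i x → x ∈ U i)
    {b : ℝ} (hb : 0 < b) (hP : pbFun σ f ≤ ENNReal.ofReal b)
    {D : M.carrier → M.carrier → ℝ} (hself : ∀ x, D x x = 0) (hsymm : ∀ x y, D x y = D y x)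
    (htri : ∀ x y z, D x z ≤ D x y + D y z) (hc : ∀ x, Continuous (D x))
    (hge : ∀ x y, ∑ j, |f j x - f j y| ≤ D x y)
    (hloc : ∀ x, ∀ᶠ y in nhds x, D x y ≤ ∑ j, |f j x - f j y|)
    (hH : ∀ V : Set (Set M.carrier), Fam D V → ⋃₀ V = univ →
      ∃ x, 2 * n + 1 ≤ {O ∈ V | x ∈ O}.ncard) :
    ∃ j, 1 / (8 * ((2 * n).factorial : ℝ) * (8 * (2 * n + 1) * (4 * n + 1)) ^ (2 * n))
      ≤ b ^ n * (vol σ (U j)).toReal := by
  classical
  by_contra hno
  push Not at hno
  set c : ℝ := 1 / (8 * ((2 * n).factorial : ℝ) * (8 * (2 * n + 1) * (4 * n + 1)) ^ (2 * n))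
    with hcdef
  set η : ℝ := 1 / (4 * (4 * n + 1)) with hη
  have hη0 : 0 < η := by positivity
  have hη1 : η * (4 * (2 * n : ℕ) + 1) + η = 1 / 2 := by
    rw [hη]
    push_cast
    field_simp
    ring
  choose δ hδ0 hδ1 E hEm hEt hE hEv using fun y : M.carrier =>
    dens hσ hf hb hP y (η := η / 4) (by positivity) (hloc y)
  have hED : ∀ y, ∀ z ∈ E y, D y ((chartOf M y).symm z) ≤ δ y := fun y z hz =>
    le_trans (hE y z hz).1 (hE y z hz).2
  obtain ⟨u, -, hu1, hu2⟩ := Vitali.exists_disjoint_subfamily_covering_enlargement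
    (fun y => {z | D y z ≤ δ y}) univ δ 2 (by norm_num) (fun y _ => (hδ0 y).le) (η / 4)
    (fun y _ => hδ1 y) (fun y _ => ⟨y, by simpa [hself] using (hδ0 y).le⟩)
  obtain ⟨S0, hS1, hS2, hS3⟩ := isCompact_univ.elim_finite_subcover_image (b := u)
    (c := fun y => {z | D y z < 4 * δ y}) (fun y _ => isOpen_lt (hc y) continuous_const) (by
      intro x _
      obtain ⟨y, hy, ⟨w, h1, h2⟩, h3⟩ := hu2 x (mem_univ x)
      refine mem_iUnion₂.2 ⟨y, hy, ?_⟩
      have h4 : D x w ≤ δ x := h1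
      have h5 : D y w ≤ δ y := h2
      show D y x < 4 * δ y
      linarith [htri y w x, hsymm w x, hδ0 y])
  obtain ⟨V, hV1, hV2, hV3⟩ := pap (r := fun y => 4 * δ y) hself hsymm htri hc hη0
    (fun y => ⟨by linarith [hδ0 y], by linarith [hδ1 y]⟩) (2 * n) (by linarith) hS2.toFinset (by
      intro x
      set S := hS2.toFinset.filter fun y => D x y < η * (4 * (2 * n : ℕ) + 1) with hS
      have h1 := share hσ ho h0 hs hsub x S E hEm hEt (fun y hy z hz hyz => by
          have hy' : y ∈ u := hS1 (hS2.mem_toFinset.1 (Finset.mem_filter.1 hy).1)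
          have hz' : z ∈ u := hS1 (hS2.mem_toFinset.1 (Finset.mem_filter.1 hz).1)
          refine (hu1 hy' hz' hyz).mono ?_ ?_
          · rintro _ ⟨w, hw, rfl⟩
            exact hED y w hw
          · rintro _ ⟨w, hw, rfl⟩
            exact hED z w hw) (fun y hy z hz => by
          linarith [hge x ((chartOf M y).symm z), htri x y ((chartOf M y).symm z), hED y z hz,
            (Finset.mem_filter.1 hy).2, hδ1 y])
      have h2 := (Finset.sum_le_sum fun y (_ : y ∈ S) => hEv y).trans h1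
      have hk : ∀ y, 0 ≤ (2 * (δ y / (2 * n + 1))) ^ (2 * n)
          / (4 * (2 * n).factorial * b ^ n) := fun y => by
        have := hδ0 y
        positivity
      rw [← ENNReal.ofReal_sum_of_nonneg fun y _ => hk y] at h2
      have h3 := ENNReal.toReal_mono (ENNReal.sum_ne_top.2 fun j _ =>
        ENNReal.mul_ne_top ENNReal.ofReal_ne_top (vol_ne_top hσ (U j))) h2
      rw [ENNReal.toReal_ofReal (Finset.sum_nonneg fun y _ => hk y), ENNReal.toReal_sum
        fun j _ => ENNReal.mul_ne_top ENNReal.ofReal_ne_top (vol_ne_top hσ (U j))] at h3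
      have h4 : b ^ n * ∑ j, (ENNReal.ofReal (2 * f j x) * vol σ (U j)).toReal
          < ∑ j, 2 * f j x * c := by
        rw [Finset.mul_sum]
        have h5 : ∀ j, b ^ n * (ENNReal.ofReal (2 * f j x) * vol σ (U j)).toReal
            = 2 * f j x * (b ^ n * (vol σ (U j)).toReal) := fun j => by
          rw [ENNReal.toReal_mul, ENNReal.toReal_ofReal (by linarith [h0 j x])]
          ring
        simp only [h5]
        refine Finset.sum_lt_sum (fun j _ => mul_le_mul_of_nonneg_left (hno j).le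
          (by linarith [h0 j x])) ?_
        by_contra hh
        push Not at hh
        have h6 : ∀ j, f j x ≤ 0 := fun j => not_lt.1 fun h =>
          absurd (mul_lt_mul_of_pos_left (hno j) (by linarith : 0 < 2 * f j x))
            (not_lt.2 (hh j (Finset.mem_univ j)))
        have h7 := Finset.sum_nonpos (s := Finset.univ) fun j _ => h6 j
        rw [hs x] at h7
        linarith
      rw [← Finset.sum_mul, ← Finset.mul_sum, hs, mul_one] at h4
      have h8 : ∑ y ∈ S, (4 * δ y) ^ (2 * n) = (2 * (2 * n + 1)) ^ (2 * n) * 4 * (2 * n).factorial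
          * (b ^ n * ∑ y ∈ S, (2 * (δ y / (2 * n + 1))) ^ (2 * n)
            / (4 * (2 * n).factorial * b ^ n)) := by
        rw [Finset.mul_sum, Finset.mul_sum]
        refine Finset.sum_congr rfl fun y _ => ?_
        have h9 : 4 * δ y = 2 * (2 * n + 1) * (2 * (δ y / (2 * n + 1))) := by
          field_simp
          ring
        rw [h9, mul_pow (2 * (2 * n + 1) : ℝ)]
        field_simp
      have h10 : η ^ (2 * n) = (2 * (2 * n + 1)) ^ (2 * n) * 4 * (2 * n).factorial * (2 * c) := by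
        have h11 : (8 * (2 * n + 1) * (4 * n + 1) : ℝ) = 2 * (2 * n + 1) * (4 * (4 * n + 1)) := by
          ring
        rw [hcdef, hη, h11, mul_pow (2 * (2 * n + 1) : ℝ), _root_.one_div_pow]
        field_simp
        norm_num
      rw [h8, h10]
      refine mul_lt_mul_of_pos_left (lt_of_le_of_lt ?_ h4) (by positivity)
      exact mul_le_mul_of_nonneg_left h3 (by positivity))
  obtain ⟨x, hx⟩ := hH V hV1 (eq_univ_of_forall fun x => hV2 (by
    obtain ⟨y, hy, h⟩ := mem_iUnion₂.1 (hS3 (mem_univ x))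
    exact ⟨y, hS2.mem_toFinset.2 hy, h⟩))
  have := hV3 x
  omega

theorem main2 {n : ℕ} {M : ClosedMfd (2 * n)} {σ : TwoForm M} (hσ : IsSymplectic σ)
    {E G : Type} [TopologicalSpace E] [Group G] [MulAction G E] {q : E → M.carrier}
    (hq : IsQuotientCoveringMap q G) {U : Fin N → Set M.carrier} (ho : ∀ i, IsOpen (U i))
    (hc : ⋃ i, U i = univ) {s : Fin N → M.carrier → E}
    (hsec : ∀ j, ContinuousOn (s j) (U j) ∧ ∀ x ∈ U j, q (s j x) = x)
    (hH : ∀ V : Set (Set M.carrier), V.Finite →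
      (∀ W ∈ V, IsOpen W ∧ LiftsIntoStar G q U s W) → ⋃₀ V = univ →
      ∃ x, 2 * n + 1 ≤ {W ∈ V | x ∈ W}.ncard) :
    ∃ j, 1 / (8 * ((2 * n).factorial : ℝ) * (8 * (2 * n + 1) * (4 * n + 1)) ^ (2 * n))
      ≤ (pbCover σ U).toReal ^ n * (vol σ (U j)).toReal := by
  have hsm : ∀ (F : SmoothPartitionOfUnity (Fin N) (𝓡 (2 * n)) M.carrier univ) i,
      ContMDiff (𝓡 (2 * n)) 𝓘(ℝ, ℝ) ∞ (F i) := fun F i => (F i).contMDiff
  obtain ⟨F0, hF0⟩ := SmoothPartitionOfUnity.exists_isSubordinate (𝓡 (2 * n)) isClosed_univ U ho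
    hc.ge
  have hfin : pbCover σ U ≠ ⊤ :=
    ne_top_of_le_ne_top (pbFun_ne_top hσ (hsm F0)) (iInf₂_le_of_le F0 hF0 le_rfl)
  set c : ℝ := 1 / (8 * ((2 * n).factorial : ℝ) * (8 * (2 * n + 1) * (4 * n + 1)) ^ (2 * n))
    with hcdef
  have key : ∀ b, (pbCover σ U).toReal < b → ∃ j, c ≤ b ^ n * (vol σ (U j)).toReal := by
    intro b hb
    have hb0 : 0 < b := lt_of_le_of_lt ENNReal.toReal_nonneg hb
    have h1 : pbCover σ U < ENNReal.ofReal b :=
      (ENNReal.lt_ofReal_iff_toReal_lt hfin).2 hb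
    obtain ⟨F, h2⟩ := iInf_lt_iff.1 h1
    obtain ⟨hF, h3⟩ := iInf_lt_iff.1 h2
    have hs : ∀ x, ∑ i, F i x = 1 := fun x => by
      rw [← F.sum_eq_one (mem_univ x), finsum_eq_sum_of_fintype]
    have hsub : ∀ i x, 0 < F i x → x ∈ U i := fun i x hx => hF i (subset_tsupport _ hx.ne')
    obtain ⟨D, h4, h5, h6, h7, h8, h9, h10⟩ := metric (f := fun i => F i) hq ho hsec
      (fun i => (hsm F i).continuous) (fun i x => F.nonneg i x) hs hsub
    exact one_set hσ ho (hsm F) (fun i x => F.nonneg i x) hs hsub hb0 h3.le h4 h5 h6 h7 h8 h9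
      fun V hV => hH V hV.1 fun W hW => ⟨(hV.2 W hW).1,
        (hV.2 W hW).2.elim fun x hx => h10 x W hx⟩
  by_contra hno
  push Not at hno
  have h6 : ∀ᶠ b in nhdsWithin (pbCover σ U).toReal (Ioi (pbCover σ U).toReal), ∀ j,
      b ^ n * (vol σ (U j)).toReal < c := by
    refine Filter.eventually_all.2 fun j => ?_
    have hcont : Continuous fun b : ℝ => b ^ n * (vol σ (U j)).toReal := by fun_prop
    exact (hcont.continuousAt.eventually_lt_const (hno _)).filter_mono nhdsWithin_le_nhds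
  obtain ⟨b, h7, h8⟩ := (h6.and eventually_mem_nhdsWithin).exists
  obtain ⟨j, hj⟩ := key b h8
  exact absurd (h7 j) (not_lt.2 hj)

end Pool.Agent.MP_12aee2_gt.H38
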